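import Mathlib

set_option autoImplicit false

open Set Filter Topology ComplexConjugate

namespace Pool.Agent.LibMixed

/-- The area form of `ℂ`. -/
noncomputable def areaC : ℂ [⋀^Fin 2]→L[ℝ] ℝ where
  toFun v := (conj (v 0) * v 1).im
  map_update_add' := by
    intro inst m i x y
    have : inst = instDecidableEqFin 2 := Subsingleton.elim _ _
    subst this
    fin_cases i <;> simp [Function.update] <;> ring
  map_update_smul' := by
    intro inst m i x y
    have : inst = instDecidableEqFin 2 := Subsingleton.elim _ _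
    subst this
    fin_cases i <;> simp [Function.update] <;> ring
  map_eq_zero_of_eq' := by
    intro v i j hv hij
    fin_cases i <;> fin_cases j <;> simp_all <;> ring
  cont := by fun_prop

@[simp] lemma areaC_apply (v : Fin 2 → ℂ) : areaC v = (conj (v 0) * v 1).im := rfl

/-- the coordinates of `ℂ × ℂ` -/
noncomputable def coords : ℂ × ℂ →L[ℝ] (Fin 4 → ℝ) :=
  ContinuousLinearMap.pi ![Complex.reCLM.comp (ContinuousLinearMap.fst ℝ ℂ ℂ),
    Complex.imCLM.comp (ContinuousLinearMap.fst ℝ ℂ ℂ),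
    Complex.reCLM.comp (ContinuousLinearMap.snd ℝ ℂ ℂ),
    Complex.imCLM.comp (ContinuousLinearMap.snd ℝ ℂ ℂ)]

@[simp] lemma coords_zero (w : ℂ × ℂ) : coords w 0 = w.1.re := rfl
@[simp] lemma coords_one (w : ℂ × ℂ) : coords w 1 = w.1.im := rfl
@[simp] lemma coords_two (w : ℂ × ℂ) : coords w 2 = w.2.re := rfl
@[simp] lemma coords_three (w : ℂ × ℂ) : coords w 3 = w.2.im := rfl

/-- The determinant, as a continuous alternating map on the rows. -/
noncomputable def detForm : (Fin 4 → ℝ) [⋀^Fin 4]→L[ℝ] ℝ :=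
  { (Matrix.detRowAlternating (n := Fin 4) (R := ℝ)) with
    cont := by
      change Continuous fun m : Fin 4 → Fin 4 → ℝ => Matrix.det (Matrix.of m)
      exact Continuous.matrix_det (by fun_prop) }

lemma detForm_apply (v : Fin 4 → Fin 4 → ℝ) : detForm v = Matrix.det (Matrix.of v) := rfl

noncomputable def vol4 : (ℂ × ℂ) [⋀^Fin 4]→L[ℝ] ℝ := detForm.compContinuousLinearMap coords

lemma vol4_apply (f : Fin 4 → ℂ × ℂ) :
    vol4 f = Matrix.det (Matrix.of fun i => coords (f i)) := rfl

/-- the first area form -/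
noncomputable def A1 : (ℂ × ℂ) [⋀^Fin 2]→L[ℝ] ℝ :=
  areaC.compContinuousLinearMap (ContinuousLinearMap.fst ℝ ℂ ℂ)

/-- the second area form -/
noncomputable def A2 : (ℂ × ℂ) [⋀^Fin 2]→L[ℝ] ℝ :=
  areaC.compContinuousLinearMap (ContinuousLinearMap.snd ℝ ℂ ℂ)

@[simp] lemma A1_apply (v : Fin 2 → ℂ × ℂ) : A1 v = (conj (v 0).1 * (v 1).1).im := rfl
@[simp] lemma A2_apply (v : Fin 2 → ℂ × ℂ) : A2 v = (conj (v 0).2 * (v 1).2).im := rfl

/-- the metric of `ℂ × ℂ` -/
noncomputable def met (a b : ℂ × ℂ) : ℝ := (conj a.1 * b.1).re + (conj a.2 * b.2).re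

/-- rotations -/
noncomputable def rot (c : ℂ × ℂ) (w : ℂ × ℂ) : ℂ × ℂ := (c.1 * w.1, c.2 * w.2)

lemma conj_mul_unit {c : ℂ} (hc : ‖c‖ = 1) (a b : ℂ) : conj (c * a) * (c * b) = conj a * b := by
  have h : conj c * c = 1 := by
    rw [mul_comm, Complex.mul_conj, Complex.normSq_eq_norm_sq, hc]; simp
  rw [map_mul]
  calc conj c * conj a * (c * b) = (conj c * c) * (conj a * b) := by ring
    _ = conj a * b := by rw [h, one_mul]

lemma A1_rot {c : ℂ × ℂ} (h1 : ‖c.1‖ = 1) (v : Fin 2 → ℂ × ℂ) :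
    A1 (fun i => rot c (v i)) = A1 v := by
  simp only [A1_apply, rot, conj_mul_unit h1]

lemma A2_rot {c : ℂ × ℂ} (h1 : ‖c.2‖ = 1) (v : Fin 2 → ℂ × ℂ) :
    A2 (fun i => rot c (v i)) = A2 v := by
  simp only [A2_apply, rot, conj_mul_unit h1]

lemma met_rot {c : ℂ × ℂ} (h1 : ‖c.1‖ = 1) (h2 : ‖c.2‖ = 1) (a b : ℂ × ℂ) :
    met (rot c a) (rot c b) = met a b := by
  simp only [met, rot, conj_mul_unit h1, conj_mul_unit h2]

/-- block matrix form of the determinant of a complex rotation -/
lemma det_rotMat (c : ℂ × ℂ) :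
    Matrix.det !![c.1.re, c.1.im, 0, 0; -c.1.im, c.1.re, 0, 0; 0, 0, c.2.re, c.2.im;
      0, 0, -c.2.im, c.2.re] = Complex.normSq c.1 * Complex.normSq c.2 := by
  rw [Matrix.det_succ_row_zero]
  simp [Fin.sum_univ_succ, Matrix.det_succ_row_zero, Fin.succAbove, Complex.normSq_apply,
    Matrix.submatrix]
  ring

lemma vol4_rot {c : ℂ × ℂ} (h1 : ‖c.1‖ = 1) (h2 : ‖c.2‖ = 1) (f : Fin 4 → ℂ × ℂ) :
    vol4 (fun i => rot c (f i)) = vol4 f := by
  rw [vol4_apply, vol4_apply]
  have : (Matrix.of fun i => coords (rot c (f i)))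
      = (Matrix.of fun i => coords (f i)) * !![c.1.re, c.1.im, 0, 0; -c.1.im, c.1.re, 0, 0;
        0, 0, c.2.re, c.2.im; 0, 0, -c.2.im, c.2.re] := by
    ext i j
    rw [Matrix.mul_apply]
    fin_cases j <;> simp [Fin.sum_univ_succ, rot] <;> ring
  rw [this, Matrix.det_mul, det_rotMat, Complex.normSq_eq_norm_sq, Complex.normSq_eq_norm_sq,
    h1, h2]
  simp

/-- complementary minors of a special orthogonal matrix -/
lemma complementary_minor (A B C D : Matrix (Fin 2) (Fin 2) ℝ)
    (h1 : A * A.transpose + B * B.transpose = 1) (h2 : C * A.transpose + D * B.transpose = 0)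
    (hdet : (Matrix.fromBlocks A B C D).det = 1) : A.det = D.det := by
  have h := Matrix.fromBlocks_multiply A B C D A.transpose (0 : Matrix (Fin 2) (Fin 2) ℝ)
    B.transpose (1 : Matrix (Fin 2) (Fin 2) ℝ)
  rw [h1, h2] at h
  have h' := congrArg Matrix.det h
  rw [Matrix.det_mul, Matrix.det_fromBlocks_zero₁₂, hdet, Matrix.mul_zero, Matrix.mul_zero,
    Matrix.mul_one, Matrix.mul_one, zero_add, zero_add, Matrix.det_fromBlocks_zero₂₁] at h'
  simpa using h'

lemma met_coords (a b : ℂ × ℂ) : met a b = ∑ j, coords a j * coords b j := by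
  simp [met, Fin.sum_univ_succ]
  ring

/-- The Hodge star on `ℂ × ℂ` exchanges the two area forms. -/
lemma hodge_aux (a b : Fin 4 → ℂ)
    (horth : ∀ i j, (conj (a i) * a j).re + (conj (b i) * b j).re = if i = j then (1 : ℝ) else 0)
    (hdet : Matrix.det (Matrix.of fun i : Fin 4 => ![(a i).re, (a i).im, (b i).re, (b i).im]) = 1) :
    (conj (a 0) * a 1).im = (conj (b 2) * b 3).im := by
  have key := complementary_minor !![(a 0).re, (a 0).im; (a 1).re, (a 1).im]
    !![(b 0).re, (b 0).im; (b 1).re, (b 1).im] !![(a 2).re, (a 2).im; (a 3).re, (a 3).im]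
    !![(b 2).re, (b 2).im; (b 3).re, (b 3).im] ?_ ?_ ?_
  · rw [Matrix.det_fin_two_of, Matrix.det_fin_two_of] at key
    simp only [Complex.mul_im, Complex.conj_re, Complex.conj_im]
    linarith
  · ext i j
    have h00 := horth 0 0
    have h01 := horth 0 1
    have h10 := horth 1 0
    have h11 := horth 1 1
    simp only [Complex.mul_re, Complex.conj_re, Complex.conj_im] at h00 h01 h10 h11
    simp only [Matrix.add_apply, Matrix.mul_apply, Matrix.transpose_apply, Fin.sum_univ_two]
    fin_cases i <;> fin_cases j <;> simp at h00 h01 h10 h11 ⊢ <;> linarith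
  · ext i j
    have h00 := horth 2 0
    have h01 := horth 2 1
    have h10 := horth 3 0
    have h11 := horth 3 1
    simp only [Complex.mul_re, Complex.conj_re, Complex.conj_im] at h00 h01 h10 h11
    simp only [Matrix.add_apply, Matrix.mul_apply, Matrix.transpose_apply, Fin.sum_univ_two]
    fin_cases i <;> fin_cases j <;> simp at h00 h01 h10 h11 ⊢ <;> linarith
  · rw [← hdet, ← Matrix.det_submatrix_equiv_self (finSumFinEquiv (m := 2) (n := 2)).symm]
    congr 1
    ext i j
    fin_cases i <;> fin_cases j <;> rfl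

lemma hodge (f : Fin 4 → ℂ × ℂ) (horth : ∀ i j, met (f i) (f j) = if i = j then (1 : ℝ) else 0)
    (hpos : 0 < vol4 f) :
    A1 ![f 0, f 1] = A2 ![f 2, f 3] ∧ A2 ![f 0, f 1] = A1 ![f 2, f 3] := by
  have hdet : vol4 f = 1 := by
    have h : (Matrix.of fun i => coords (f i)) * (Matrix.of fun i => coords (f i)).transpose
        = 1 := by
      ext i j
      rw [Matrix.mul_apply, Matrix.one_apply, ← horth i j, met_coords]
      rfl
    have h' := congrArg Matrix.det h
    rw [Matrix.det_mul, Matrix.det_transpose, Matrix.det_one, ← vol4_apply] at h'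
    nlinarith
  have hM : (Matrix.of fun i : Fin 4 => ![(f i).1.re, (f i).1.im, (f i).2.re, (f i).2.im])
      = Matrix.of fun i => coords (f i) := by
    ext i j
    fin_cases j <;> rfl
  have hM' : (Matrix.of fun i : Fin 4 => ![(f i).2.re, (f i).2.im, (f i).1.re, (f i).1.im]).det
      = (Matrix.of fun i => coords (f i)).det := by
    have h1 := Matrix.det_permute' (Equiv.swap (0 : Fin 4) 2 * Equiv.swap (1 : Fin 4) 3)
      (Matrix.of fun i => coords (f i))
    have h2 : ((Equiv.Perm.sign (Equiv.swap (0 : Fin 4) 2 * Equiv.swap (1 : Fin 4) 3) : ℤ) : ℝ)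
        = 1 := by
      rw [Equiv.Perm.sign_mul, Equiv.Perm.sign_swap (by decide), Equiv.Perm.sign_swap (by decide)]
      norm_num
    rw [h2, one_mul] at h1
    rw [← h1]
    congr 1
    ext i j
    fin_cases j <;> rfl
  constructor
  · have := hodge_aux (fun i => (f i).1) (fun i => (f i).2) (fun i j => horth i j) (by
      rw [hM, ← vol4_apply]; exact hdet)
    simpa using this
  · have := hodge_aux (fun i => (f i).2) (fun i => (f i).1) (fun i j => by
      rw [add_comm]; exact horth i j) (by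
      rw [hM', ← vol4_apply]; exact hdet)
    simpa using this

end Pool.Agent.LibMixed
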