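import Mathlib

set_option autoImplicit false

/-!
# Intrinsically harmonic 2-forms of mixed rank on `CP² # -CP²`

`M = CP² # -CP²` is the blow-up of `CP²` at the point `[1 : 0 : 0]`, that is
`{([Z], [x]) ∈ CP² × CP¹ : (Z₁, Z₂) ∈ ℂ x}`.  With homogeneous coordinates `x = (x₀, x₁) ≠ 0` and
`y = (y₀, y₁) ≠ 0`, the map `(x, y) ↦ ([y₀ : x₀ y₁ : x₁ y₁], [x₀ : x₁])` identifies `M` with the
orbit space of `(ℂ² ∖ 0) × (ℂ² ∖ 0)` under the free action
`(λ, μ) · (x, y) = (λ x, (μ y₀, μ λ⁻¹ y₁))` of `ℂ* × ℂ*`; the projection to `[x]` is the non-trivial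
`CP¹`-bundle over `CP¹`.

A smooth 4-manifold `X` is this orbit space if there is a surjective submersion
`p : (ℂ² ∖ 0) × (ℂ² ∖ 0) → X` whose fibres are exactly the orbits.
-/

open Set Manifold ContDiff

namespace Pool.Agent.LibMixed

/-- The space `(ℂ² ∖ 0) × (ℂ² ∖ 0)` of the pairs `((x₀, x₁), (y₀, y₁))`. -/
def Pairs : Set ((ℂ × ℂ) × (ℂ × ℂ)) := {n | n.1 ≠ 0 ∧ n.2 ≠ 0}

/-- The orbit relation of the action of `ℂ* × ℂ*` on pairs `((x₀, x₁), (y₀, y₁))`. -/
def SameOrbit (n n' : (ℂ × ℂ) × (ℂ × ℂ)) : Prop :=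
  ∃ l m : ℂ, l ≠ 0 ∧ m ≠ 0 ∧
    n' = ((l * n.1.1, l * n.1.2), (m * n.2.1, m * l⁻¹ * n.2.2))

section Definitions

variable {E : Type*} [NormedAddCommGroup E] [NormedSpace ℝ E]
  {X : Type*} [TopologicalSpace X] [ChartedSpace E X]

/-- The coordinates, in the preferred chart at `p y`, of the tangent vector `dp(v)` at `p y`, for a
map `p` from a vector space `V` to a manifold modelled on the vector space `E`. -/
noncomputable def diffMap {V : Type*} [NormedAddCommGroup V] [NormedSpace ℝ V]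
    (p : V → X) (y v : V) : E :=
  lineDeriv ℝ (chartAt E (p y) ∘ p) y v

/-- The map `p`, restricted to `Pairs`, is a surjective submersion onto `X` whose fibres are
exactly the orbits; so `X` is `CP² # -CP²`. -/
structure IsOrbitProjection (p : (ℂ × ℂ) × (ℂ × ℂ) → X) : Prop where
  smooth : ContMDiffOn 𝓘(ℝ, (ℂ × ℂ) × (ℂ × ℂ)) 𝓘(ℝ, E) ∞ p Pairs
  submersion : ∀ n ∈ Pairs, ∀ w : E, ∃ v, diffMap p n v = w
  surjective : ∀ x : X, ∃ n ∈ Pairs, p n = x
  fibres : ∀ n ∈ Pairs, ∀ n' ∈ Pairs, p n = p n' ↔ SameOrbit n n'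

/-- The tangent space of `X` at `x` is `E`, through the preferred chart at `x`.  This is the linear
map which takes the coordinates in the preferred chart at `x₀` of a tangent vector at the point with
coordinates `z` in that chart to its coordinates in the preferred chart at that point. -/
noncomputable def coordChange (x₀ : X) (z : E) : E →L[ℝ] E :=
  fderiv ℝ (chartAt E ((chartAt E x₀).symm z) ∘ (chartAt E x₀).symm) z

/-- The expression in the preferred chart at `x₀` of a `k`-form on `X`. -/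
noncomputable def localForm {k : ℕ} (α : X → E [⋀^Fin k]→L[ℝ] ℝ) (x₀ : X) (z : E) :
    E [⋀^Fin k]→L[ℝ] ℝ :=
  (α ((chartAt E x₀).symm z)).compContinuousLinearMap (coordChange x₀ z)

/-- The `k`-form `α` is smooth. -/
def IsSmoothForm {k : ℕ} (α : X → E [⋀^Fin k]→L[ℝ] ℝ) : Prop :=
  ∀ x₀ : X, ContDiffOn ℝ ∞ (localForm α x₀) (chartAt E x₀).target

/-- The `k`-form `α` is closed, `dα = 0`. -/
def IsClosedForm {k : ℕ} (α : X → E [⋀^Fin k]→L[ℝ] ℝ) : Prop :=
  ∀ x₀ : X, ∀ z ∈ (chartAt E x₀).target, extDeriv (localForm α x₀) z = 0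

/-- `g` is a smooth Riemannian metric on `X`. -/
structure IsMetric (g : X → E → E → ℝ) : Prop where
  linear : ∀ x u, IsLinearMap ℝ (g x u)
  symm : ∀ x u v, g x u v = g x v u
  pos : ∀ x u, u ≠ 0 → 0 < g x u u
  smooth : ∀ (x₀ : X) (u v : E), ContDiffOn ℝ ∞
    (fun z => g ((chartAt E x₀).symm z) (coordChange x₀ z u) (coordChange x₀ z v))
    (chartAt E x₀).target

/-- `vol` is an orientation form on the 4-manifold `X`: a smooth 4-form which vanishes nowhere. -/
structure IsOrientation (vol : X → E [⋀^Fin 4]→L[ℝ] ℝ) : Prop where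
  smooth : IsSmoothForm vol
  ne_zero : ∀ x, vol x ≠ 0

/-- `β = ⋆α` for the metric `g` and the orientation given by `vol` on the 4-manifold `X`:
`β(e₀, e₁) = α(e₂, e₃)` for every positively oriented orthonormal basis `e₀, e₁, e₂, e₃` of a
tangent space. -/
def IsHodgeStar (g : X → E → E → ℝ) (vol : X → E [⋀^Fin 4]→L[ℝ] ℝ)
    (α β : X → E [⋀^Fin 2]→L[ℝ] ℝ) : Prop :=
  ∀ (x : X) (e : Fin 4 → E), (∀ i j, g x (e i) (e j) = if i = j then 1 else 0) →
    0 < vol x e → β x ![e 0, e 1] = α x ![e 2, e 3]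

/-- The 2-form `α` on the 4-manifold `X` is intrinsically harmonic: it is smooth, `dα = 0`, and
`d(⋆α) = 0` for some Riemannian metric (and some orientation). -/
def IntrinsicallyHarmonic (α : X → E [⋀^Fin 2]→L[ℝ] ℝ) : Prop :=
  IsSmoothForm α ∧ IsClosedForm α ∧
    ∃ (g : X → E → E → ℝ) (vol : X → E [⋀^Fin 4]→L[ℝ] ℝ)
      (β : X → E [⋀^Fin 2]→L[ℝ] ℝ), IsMetric g ∧ IsOrientation vol ∧
        IsHodgeStar g vol α β ∧ IsSmoothForm β ∧ IsClosedForm β

/-- The rank of the 2-form `α` at `x`: the dimension of the space of all linear forms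
`v ↦ α(u, v)`. -/
noncomputable def rankAt (α : X → E [⋀^Fin 2]→L[ℝ] ℝ) (x : X) : ℕ :=
  (Set.range fun u v : E => α x ![u, v]).finrank ℝ

end Definitions

section Statements

variable (E : Type*) [NormedAddCommGroup E] [NormedSpace ℝ E]
  (X : Type*) [TopologicalSpace X] [ChartedSpace E X]

/-- `X` is a smooth manifold diffeomorphic to `CP² # -CP²`. -/
def IsCP2SumCP2bar : Prop :=
  IsManifold 𝓘(ℝ, E) ∞ X ∧ ∃ p : (ℂ × ℂ) × (ℂ × ℂ) → X, IsOrbitProjection (E := E) p

/-- The 4-manifold `X` carries an intrinsically harmonic 2-form whose rank is at least 2 at every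
point, equal to 2 at some point and equal to 4 at some other point. -/
def HasMixedHarmonicForm : Prop :=
  ∃ α : X → E [⋀^Fin 2]→L[ℝ] ℝ, IntrinsicallyHarmonic α ∧ (∀ x, 2 ≤ rankAt α x) ∧
    (∃ x, rankAt α x = 2) ∧ ∃ x, rankAt α x = 4

end Statements

end Pool.Agent.LibMixed
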