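import Mathlib
import Pool.Agent.Lib_MP_dc226a_gt.Defs
import Pool.Agent.Lib_MP_dc226a_gt.Alg

set_option autoImplicit false

open Set Filter Topology ComplexConjugate ContDiff

namespace Pool.Agent.LibMixed

abbrev V8 := (ℂ × ℂ) × (ℂ × ℂ)

/-- `|x|²` -/
noncomputable def nA (n : V8) : ℝ := Complex.normSq n.1.1 + Complex.normSq n.1.2

noncomputable def nN (n : V8) : ℝ := Complex.normSq n.2.1 + nA n * Complex.normSq n.2.2

noncomputable def hgt (n : V8) : ℝ :=
  (nA n * Complex.normSq n.2.2 - Complex.normSq n.2.1) / nN n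

noncomputable def vpi (n u : V8) : ℂ :=
  (conj n.1.1 * u.1.1 + conj n.1.2 * u.1.2) / ((nA n : ℝ) : ℂ)

noncomputable def chi (n u : V8) : ℂ :=
  ((Real.sqrt 2 / nA n : ℝ) : ℂ) * (n.1.1 * u.1.2 - n.1.2 * u.1.1)

noncomputable def psi (n u : V8) : ℂ :=
  ((2 * Real.sqrt (nA n) / nN n : ℝ) : ℂ) *
    (n.2.1 * (u.2.2 + vpi n u * n.2.2) - n.2.2 * u.2.1)

lemma normSq_add_pos {a b : ℂ} (h : (a, b) ≠ (0 : ℂ × ℂ)) :
    0 < Complex.normSq a + Complex.normSq b := by
  by_contra hcon
  have h1 := Complex.normSq_nonneg a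
  have h2 := Complex.normSq_nonneg b
  have ha : a = 0 := Complex.normSq_eq_zero.1 (by linarith)
  have hb : b = 0 := Complex.normSq_eq_zero.1 (by linarith)
  exact h (by rw [ha, hb]; rfl)

lemma nA_pos {n : V8} (h : n.1 ≠ 0) : 0 < nA n := normSq_add_pos (a := n.1.1) (b := n.1.2) h

lemma nN_pos {n : V8} (h : n ∈ Pairs) : 0 < nN n := by
  have h1 := nA_pos h.1
  have h2 := normSq_add_pos (a := n.2.1) (b := n.2.2) h.2
  have h3 := Complex.normSq_nonneg n.2.1
  have h4 := Complex.normSq_nonneg n.2.2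
  rw [nN]
  rcases eq_or_lt_of_le h4 with h5 | h5
  · rw [← h5] at h2 ⊢
    linarith
  · have := mul_pos h1 h5
    linarith

lemma vpi_add (n u v : V8) : vpi n (u + v) = vpi n u + vpi n v := by
  simp only [vpi, Prod.fst_add, Prod.snd_add]
  ring

lemma vpi_smul (n : V8) (r : ℝ) (u : V8) : vpi n (r • u) = r * vpi n u := by
  simp only [vpi, Prod.smul_fst, Prod.smul_snd, Complex.real_smul]
  ring

/-- the coframe -/
noncomputable def cof (n : V8) : V8 →L[ℝ] ℂ × ℂ :=
  LinearMap.toContinuousLinearMap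
    { toFun := fun u => (chi n u, psi n u)
      map_add' := by
        intro u v
        ext1
        · simp only [chi, Prod.fst_add, Prod.snd_add]
          ring
        · simp only [psi, vpi_add, Prod.fst_add, Prod.snd_add]
          ring
      map_smul' := by
        intro r u
        ext1
        · simp only [chi, Prod.smul_fst, Prod.smul_snd, Complex.real_smul, RingHom.id_apply]
          ring
        · simp only [psi, vpi_smul, Prod.smul_fst, Prod.smul_snd, Complex.real_smul,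
            RingHom.id_apply]
          ring }

@[simp] lemma cof_apply (n u : V8) : cof n u = (chi n u, psi n u) := rfl

section Smooth

variable {F : Type*} [NormedAddCommGroup F] [NormedSpace ℝ F] {k : WithTop ℕ∞} {z : F}

lemma cd_conj {f : F → ℂ} (hf : ContDiffAt ℝ k f z) : ContDiffAt ℝ k (fun y => conj (f y)) z :=
  (Complex.conjCLE.contDiff.contDiffAt).comp z hf

lemma cd_re {f : F → ℂ} (hf : ContDiffAt ℝ k f z) : ContDiffAt ℝ k (fun y => (f y).re) z :=
  (Complex.reCLM.contDiff.contDiffAt).comp z hf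

lemma cd_im {f : F → ℂ} (hf : ContDiffAt ℝ k f z) : ContDiffAt ℝ k (fun y => (f y).im) z :=
  (Complex.imCLM.contDiff.contDiffAt).comp z hf

lemma cd_ofReal {f : F → ℝ} (hf : ContDiffAt ℝ k f z) :
    ContDiffAt ℝ k (fun y => ((f y : ℝ) : ℂ)) z :=
  (Complex.ofRealCLM.contDiff.contDiffAt).comp z hf

lemma cd_normSq {f : F → ℂ} (hf : ContDiffAt ℝ k f z) :
    ContDiffAt ℝ k (fun y => Complex.normSq (f y)) z := by
  simp only [Complex.normSq_apply]
  exact ((cd_re hf).mul (cd_re hf)).add ((cd_im hf).mul (cd_im hf))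

variable {m w : F → V8} (hm : ContDiffAt ℝ k m z) (hw : ContDiffAt ℝ k w z)

include hm

lemma cd_nA : ContDiffAt ℝ k (fun y => nA (m y)) z :=
  (cd_normSq hm.fst.fst).add (cd_normSq hm.fst.snd)

lemma cd_nN : ContDiffAt ℝ k (fun y => nN (m y)) z :=
  (cd_normSq hm.snd.fst).add ((cd_nA hm).mul (cd_normSq hm.snd.snd))

lemma cd_hgt (h : m z ∈ Pairs) : ContDiffAt ℝ k (fun y => hgt (m y)) z :=
  (((cd_nA hm).mul (cd_normSq hm.snd.snd)).sub (cd_normSq hm.snd.fst)).div (cd_nN hm)
    (nN_pos h).ne'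

include hw

lemma cd_vpi (h : m z ∈ Pairs) : ContDiffAt ℝ k (fun y => vpi (m y) (w y)) z := by
  simp only [vpi, div_eq_mul_inv]
  refine (((cd_conj hm.fst.fst).mul hw.fst.fst).add
    ((cd_conj hm.fst.snd).mul hw.fst.snd)).mul (ContDiffAt.inv (cd_ofReal (cd_nA hm)) ?_)
  exact_mod_cast (nA_pos h.1).ne'

lemma cd_chi (h : m z ∈ Pairs) : ContDiffAt ℝ k (fun y => chi (m y) (w y)) z :=
  (cd_ofReal (contDiffAt_const.div (cd_nA hm) (nA_pos h.1).ne')).mul
    ((hm.fst.fst.mul hw.fst.snd).sub (hm.fst.snd.mul hw.fst.fst))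

lemma cd_psi (h : m z ∈ Pairs) : ContDiffAt ℝ k (fun y => psi (m y) (w y)) z :=
  (cd_ofReal ((contDiffAt_const.mul ((cd_nA hm).sqrt (nA_pos h.1).ne')).div (cd_nN hm)
    (nN_pos h).ne')).mul
    ((hm.snd.fst.mul (hw.snd.snd.add ((cd_vpi hm hw h).mul hm.snd.snd))).sub
      (hm.snd.snd.mul hw.snd.fst))

lemma cd_cof (h : m z ∈ Pairs) : ContDiffAt ℝ k (fun y => cof (m y) (w y)) z :=
  (cd_chi hm hw h).prodMk (cd_psi hm hw h)

end Smooth

/-- the action of `ℂ* × ℂ*` -/
noncomputable def act (l m : ℂ) (n : V8) : V8 :=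
  ((l * n.1.1, l * n.1.2), (m * n.2.1, m * l⁻¹ * n.2.2))

lemma act_mem {l m : ℂ} (hl : l ≠ 0) (hm : m ≠ 0) {n : V8} (h : n ∈ Pairs) :
    act l m n ∈ Pairs := by
  refine ⟨fun h0 => h.1 ?_, fun h0 => h.2 ?_⟩
  · have h1 := congrArg Prod.fst h0
    have h2 := congrArg Prod.snd h0
    simp only [act, Prod.fst_zero, Prod.snd_zero, mul_eq_zero, hl, false_or] at h1 h2
    exact Prod.ext h1 h2
  · have h1 := congrArg Prod.fst h0
    have h2 := congrArg Prod.snd h0
    simp only [act, Prod.fst_zero, Prod.snd_zero, mul_eq_zero, hm, hl, false_or,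
      inv_eq_zero] at h1 h2
    exact Prod.ext h1 h2

lemma nA_act (l m : ℂ) (n : V8) : nA (act l m n) = Complex.normSq l * nA n := by
  simp only [nA, act, Complex.normSq_mul]
  ring

lemma nN_act {l m : ℂ} (hl : l ≠ 0) (n : V8) :
    nN (act l m n) = Complex.normSq m * nN n := by
  have h : Complex.normSq l ≠ 0 := by simpa using hl
  simp only [nN, nA_act]
  simp only [act, Complex.normSq_mul, Complex.normSq_inv]
  field_simp

lemma hgt_act {l m : ℂ} (hl : l ≠ 0) (hm : m ≠ 0) (n : V8) : hgt (act l m n) = hgt n := by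
  have h : Complex.normSq l ≠ 0 := by simpa using hl
  have h' : Complex.normSq m ≠ 0 := by simpa using hm
  rw [hgt, hgt, nN_act hl, nA_act]
  have : Complex.normSq l * nA n * Complex.normSq (act l m n).2.2
      - Complex.normSq (act l m n).2.1
      = Complex.normSq m * (nA n * Complex.normSq n.2.2 - Complex.normSq n.2.1) := by
    simp only [act, Complex.normSq_mul, Complex.normSq_inv]
    field_simp
  rw [this, mul_div_mul_left _ _ h']

lemma vpi_act {l m : ℂ} (hl : l ≠ 0) (n u : V8) : vpi (act l m n) (act l m u) = vpi n u := by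
  have h : ((Complex.normSq l : ℝ) : ℂ) ≠ 0 := by simpa using hl
  rw [vpi, vpi, nA_act, Complex.ofReal_mul]
  have : conj (act l m n).1.1 * (act l m u).1.1 + conj (act l m n).1.2 * (act l m u).1.2
      = (Complex.normSq l : ℂ) * (conj n.1.1 * u.1.1 + conj n.1.2 * u.1.2) := by
    simp only [act, map_mul, Complex.normSq_eq_conj_mul_self]
    ring
  rw [this, mul_div_mul_left _ _ h]

lemma cof_act {l m : ℂ} (hl : l ≠ 0) (hm : m ≠ 0) (n : V8) :
    ∃ c : ℂ × ℂ, ‖c.1‖ = 1 ∧ ‖c.2‖ = 1 ∧ ∀ u, cof (act l m n) (act l m u) = rot c (cof n u) := by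
  have h : Complex.normSq l ≠ 0 := by simpa using hl
  have h' : Complex.normSq m ≠ 0 := by simpa using hm
  have hc : ((Complex.normSq l : ℝ) : ℂ) ≠ 0 := by simpa using hl
  have hc' : ((Complex.normSq m : ℝ) : ℂ) ≠ 0 := by simpa using hm
  refine ⟨(l ^ 2 / (Complex.normSq l : ℂ), (‖l‖ : ℂ) * m ^ 2 * l⁻¹ / (Complex.normSq m : ℂ)),
    ?_, ?_, fun u => ?_⟩
  · simp only [norm_div, norm_pow, Complex.norm_real, Complex.normSq_eq_norm_sq, norm_norm]
    have : ‖l‖ ≠ 0 := by simpa using hl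
    field_simp
  · simp only [norm_div, norm_mul, norm_pow, norm_inv, Complex.norm_real,
      Complex.normSq_eq_norm_sq, norm_norm]
    have : ‖l‖ ≠ 0 := by simpa using hl
    have : ‖m‖ ≠ 0 := by simpa using hm
    field_simp
  · simp only [cof_apply, rot]
    ext1
    · simp only [chi, nA_act]
      simp only [act]
      push_cast
      rw [div_mul_eq_div_div]
      field_simp
    · simp only [psi, nA_act, nN_act hl, vpi_act hl]
      simp only [act]
      rw [Complex.normSq_eq_norm_sq l, Real.sqrt_mul (by positivity),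
        Real.sqrt_sq (norm_nonneg l)]
      push_cast
      field_simp

end Pool.Agent.LibMixed
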