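import Mathlib
import Pool.Agent.Lib_MP_dc226a_gt.Coframe

set_option autoImplicit false

open Set Filter Topology ComplexConjugate ContDiff

namespace Pool.Agent.LibMixed

lemma parallel {a b u v : ℂ} (h : (a, b) ≠ (0 : ℂ × ℂ)) (huv : a * v = b * u) :
    ∃ t : ℂ, u = t * a ∧ v = t * b := by
  by_cases ha : a = 0
  · have hb : b ≠ 0 := fun hb => h (by rw [ha, hb]; rfl)
    refine ⟨v / b, ?_, by field_simp⟩
    have : b * u = 0 := by rw [← huv, ha, zero_mul]
    rw [ha, mul_zero]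
    exact (mul_eq_zero.1 this).resolve_left hb
  · refine ⟨u / a, by field_simp, ?_⟩
    field_simp
    linear_combination huv

/-- vertical vectors -/
noncomputable def vert (n : V8) (s t : ℂ) : V8 :=
  ((s * n.1.1, s * n.1.2), (t * n.2.1, (t - s) * n.2.2))

lemma cof_ker {n u : V8} (h : n ∈ Pairs) (hu : cof n u = 0) : ∃ s t : ℂ, u = vert n s t := by
  have h1 : chi n u = 0 := congrArg Prod.fst hu
  have h2 : psi n u = 0 := congrArg Prod.snd hu
  have hA := nA_pos h.1
  have hN := nN_pos h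
  rw [chi, mul_eq_zero, Complex.ofReal_eq_zero] at h1
  have h1' : n.1.1 * u.1.2 - n.1.2 * u.1.1 = 0 := h1.resolve_left (by positivity)
  obtain ⟨s, hs1, hs2⟩ := parallel (a := n.1.1) (b := n.1.2) h.1 (sub_eq_zero.1 h1')
  have hv : vpi n u = s := by
    have hA' : ((nA n : ℝ) : ℂ) ≠ 0 := by exact_mod_cast hA.ne'
    rw [vpi, div_eq_iff hA', nA, hs1, hs2]
    push_cast
    rw [Complex.normSq_eq_conj_mul_self, Complex.normSq_eq_conj_mul_self]
    ring
  rw [psi, mul_eq_zero, Complex.ofReal_eq_zero, hv] at h2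
  have h2' := h2.resolve_left (by positivity)
  obtain ⟨t, ht1, ht2⟩ := parallel (a := n.2.1) (b := n.2.2) h.2 (sub_eq_zero.1 h2')
  refine ⟨s, t, ?_⟩
  refine Prod.ext (Prod.ext hs1 hs2) (Prod.ext ht1 ?_)
  change u.2.2 = (t - s) * n.2.2
  linear_combination ht2

lemma cof_vert {n : V8} (h : n ∈ Pairs) (s t : ℂ) : cof n (vert n s t) = 0 := by
  have hA := nA_pos h.1
  have hA' : ((nA n : ℝ) : ℂ) ≠ 0 := by exact_mod_cast hA.ne'
  have hv : vpi n (vert n s t) = s := by
    rw [vpi, div_eq_iff hA', nA]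
    simp only [vert]
    push_cast
    rw [Complex.normSq_eq_conj_mul_self, Complex.normSq_eq_conj_mul_self]
    ring
  rw [cof_apply]
  refine Prod.ext ?_ ?_
  · simp only [chi, vert, Prod.fst_zero]
    ring
  · simp only [psi, hv, Prod.snd_zero]
    simp only [vert]
    ring

lemma cof_surj {n : V8} (h : n ∈ Pairs) : Function.Surjective (cof n) := by
  have hA := nA_pos h.1
  have hN := nN_pos h
  have hB := normSq_add_pos (a := n.2.1) (b := n.2.2) h.2
  have hA' : ((nA n : ℝ) : ℂ) ≠ 0 := by exact_mod_cast hA.ne'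
  have hN' : ((nN n : ℝ) : ℂ) ≠ 0 := by exact_mod_cast hN.ne'
  have hB' : (((Complex.normSq n.2.1 + Complex.normSq n.2.2 : ℝ)) : ℂ) ≠ 0 := by
    exact_mod_cast hB.ne'
  have h2 : ((Real.sqrt 2 : ℝ) : ℂ) ≠ 0 := by
    have : Real.sqrt 2 ≠ 0 := by positivity
    exact_mod_cast this
  have hsA : ((Real.sqrt (nA n) : ℝ) : ℂ) ≠ 0 := by
    have : Real.sqrt (nA n) ≠ 0 := by positivity
    exact_mod_cast this
  rintro ⟨a, b⟩
  set a' : ℂ := a / (Real.sqrt 2 : ℝ) with ha'
  set b' : ℂ := b * (nN n : ℝ) / (2 * (Real.sqrt (nA n) : ℝ) *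
    ((Complex.normSq n.2.1 + Complex.normSq n.2.2 : ℝ) : ℂ)) with hb'
  refine ⟨((-conj n.1.2 * a', conj n.1.1 * a'), (-conj n.2.2 * b', conj n.2.1 * b')), ?_⟩
  have hv : vpi n ((-conj n.1.2 * a', conj n.1.1 * a'), (-conj n.2.2 * b', conj n.2.1 * b'))
      = 0 := by
    rw [vpi]
    simp only
    rw [div_eq_zero_iff]
    left
    ring
  rw [cof_apply]
  refine Prod.ext ?_ ?_
  · simp only [chi]
    have : n.1.1 * (conj n.1.1 * a') - n.1.2 * (-conj n.1.2 * a') = (nA n : ℝ) * a' := by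
      rw [nA]
      push_cast
      rw [Complex.normSq_eq_conj_mul_self, Complex.normSq_eq_conj_mul_self]
      ring
    rw [this, ha']
    push_cast
    field_simp
  · simp only [psi, hv]
    have : n.2.1 * (conj n.2.1 * b' + 0 * n.2.2) - n.2.2 * (-conj n.2.2 * b')
        = ((Complex.normSq n.2.1 + Complex.normSq n.2.2 : ℝ) : ℂ) * b' := by
      push_cast
      rw [Complex.normSq_eq_conj_mul_self, Complex.normSq_eq_conj_mul_self]
      ring
    rw [this, hb']
    push_cast at hB' ⊢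
    field_simp

end Pool.Agent.LibMixed
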