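import Mathlib
import Pool.Agent.Lib_MP_dc226a_gt.Kernel

set_option autoImplicit false

open Set Filter Topology ComplexConjugate ContDiff

namespace Pool.Agent.LibMixed

section Eval

variable {F : Type*} [NormedAddCommGroup F] [NormedSpace ℝ F]
  {E : Type*} [NormedAddCommGroup E] [NormedSpace ℝ E] [FiniteDimensional ℝ E]

instance finiteDimensional_forms (k : ℕ) : FiniteDimensional ℝ (E [⋀^Fin k]→L[ℝ] ℝ) := by
  let L : (E [⋀^Fin k]→L[ℝ] ℝ) →ₗ[ℝ] MultilinearMap ℝ (fun _ : Fin k => E) ℝ :=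
    { toFun := fun f => f.toMultilinearMap
      map_add' := fun _ _ => rfl
      map_smul' := fun _ _ => rfl }
  refine FiniteDimensional.of_injective L ?_
  intro f g hfg
  ext v
  exact congrArg (fun h : MultilinearMap ℝ (fun _ : Fin k => E) ℝ => h v) hfg

/-- A family of forms is smooth if all its evaluations are. -/
lemma contDiffAt_of_eval {k : ℕ} {r : WithTop ℕ∞} {f : F → E [⋀^Fin k]→L[ℝ] ℝ} {z : F}
    (h : ∀ v, ContDiffAt ℝ r (fun y => f y v) z) : ContDiffAt ℝ r f z := by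
  classical
  let b := Module.finBasis ℝ E
  let L : (E [⋀^Fin k]→L[ℝ] ℝ) →ₗ[ℝ] ((Fin k → Fin (Module.finrank ℝ E)) → ℝ) :=
    { toFun := fun f I => f (fun i => b (I i))
      map_add' := fun _ _ => rfl
      map_smul' := fun _ _ => rfl }
  have hL : LinearMap.ker L = ⊥ := by
    rw [LinearMap.ker_eq_bot]
    intro f g hfg
    have : f.toMultilinearMap = g.toMultilinearMap := by
      refine Module.Basis.ext_multilinear (fun _ => b) ?_
      intro I
      exact congrFun hfg I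
    ext v
    exact congrArg (fun h : MultilinearMap ℝ (fun _ : Fin k => E) ℝ => h v) this
  obtain ⟨P, hP⟩ := L.exists_leftInverse_of_injective hL
  have h1 : f = fun y => (LinearMap.toContinuousLinearMap P) (L (f y)) := by
    funext y
    have := congrArg (fun q : (E [⋀^Fin k]→L[ℝ] ℝ) →ₗ[ℝ] (E [⋀^Fin k]→L[ℝ] ℝ) => q (f y)) hP
    simpa using this.symm
  rw [h1]
  refine (ContinuousLinearMap.contDiff _).contDiffAt.comp z ?_
  rw [contDiffAt_pi]
  intro I
  exact h _

end Eval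

lemma fderiv_eq_of_line {V : Type*} [NormedAddCommGroup V] [NormedSpace ℝ V] {f : V → ℝ}
    {n u : V} {d : ℝ} (hf : DifferentiableAt ℝ f n)
    (h : HasDerivAt (fun t : ℝ => f (n + t • u)) d 0) : fderiv ℝ f n u = d := by
  rw [← hf.lineDeriv_eq_fderiv]
  exact h.deriv

lemma hd_normSq (a b : ℂ) :
    HasDerivAt (fun t : ℝ => Complex.normSq (a + t • b)) (2 * (conj a * b).re) 0 := by
  have h : (fun t : ℝ => Complex.normSq (a + t • b))
      = fun t : ℝ => Complex.normSq a + t * (2 * (conj a * b).re) + t ^ 2 * Complex.normSq b := by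
    funext t
    simp only [Complex.normSq_apply, Complex.add_re, Complex.add_im, Complex.real_smul,
      Complex.mul_re, Complex.mul_im, Complex.ofReal_re, Complex.ofReal_im, Complex.conj_re,
      Complex.conj_im]
    ring
  rw [h]
  have h1 := ((hasDerivAt_id (0 : ℝ)).mul_const (2 * (conj a * b).re)).const_add
    (Complex.normSq a)
  have h2 := ((hasDerivAt_id (0 : ℝ)).pow 2).mul_const (Complex.normSq b)
  have h3 := h1.fun_add h2
  simpa using h3

lemma hd_nA (n u : V8) :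
    HasDerivAt (fun t : ℝ => nA (n + t • u)) (2 * nA n * (vpi n u).re) 0 := by
  have h := (hd_normSq n.1.1 u.1.1).fun_add (hd_normSq n.1.2 u.1.2)
  by_cases hA : nA n = 0
  · have h0 : Complex.normSq n.1.1 = 0 := by
      have := Complex.normSq_nonneg n.1.1
      have := Complex.normSq_nonneg n.1.2
      rw [nA] at hA
      linarith
    have h1 : Complex.normSq n.1.2 = 0 := by
      rw [nA] at hA
      linarith
    rw [Complex.normSq_eq_zero] at h0 h1
    rw [hA]
    rw [h0, h1] at h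
    simp only [nA, Prod.fst_add, Prod.snd_add, Prod.smul_fst, Prod.smul_snd, h0, h1]
    simpa using h
  · have : 2 * nA n * (vpi n u).re
        = 2 * (conj n.1.1 * u.1.1).re + 2 * (conj n.1.2 * u.1.2).re := by
      rw [vpi, Complex.div_ofReal_re, Complex.add_re]
      field_simp
    rw [this]
    exact h

noncomputable def kap (n u : V8) : ℂ := u.2.2 / n.2.2 - u.2.1 / n.2.1 + vpi n u

lemma re_div_eq (u y : ℂ) : (u / y).re = (conj y * u).re / Complex.normSq y := by
  rw [Complex.div_re, Complex.mul_re, Complex.conj_re, Complex.conj_im]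
  ring

lemma hd_hgt {n : V8} (h : n ∈ Pairs) (h0 : n.2.1 ≠ 0) (h1 : n.2.2 ≠ 0) (u : V8) :
    HasDerivAt (fun t : ℝ => hgt (n + t • u)) ((1 - hgt n ^ 2) * (kap n u).re) 0 := by
  have hA := hd_nA n u
  have hp0 := hd_normSq n.2.1 u.2.1
  have hp1 := hd_normSq n.2.2 u.2.2
  have hN := nN_pos h
  have hAp := hA.fun_mul hp1
  have hnum := hAp.fun_sub hp0
  have hden := hp0.fun_add hAp
  have hden0 : Complex.normSq (n.2.1 + (0 : ℝ) • u.2.1) +
      nA (n + (0 : ℝ) • u) * Complex.normSq (n.2.2 + (0 : ℝ) • u.2.2) ≠ 0 := by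
    simp only [zero_smul, add_zero]
    exact hN.ne'
  have hfin := hnum.fun_div hden hden0
  have hq0 : Complex.normSq n.2.1 ≠ 0 := by simpa using h0
  have hq1 : Complex.normSq n.2.2 ≠ 0 := by simpa using h1
  have hN' := hN.ne'
  refine (show HasDerivAt (fun t : ℝ => hgt (n + t • u)) _ 0 from hfin).congr_deriv ?_
  simp only [zero_smul, add_zero, kap, Complex.add_re, Complex.sub_re, re_div_eq, hgt]
  rw [nN] at hN' ⊢
  field_simp
  ring

lemma hd_kap {n : V8} (h : n ∈ Pairs) (h0 : n.2.1 ≠ 0) (h1 : n.2.2 ≠ 0) (u v : V8) :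
    HasDerivAt (fun t : ℝ => kap (n + t • u) v)
      (-(v.2.2 * u.2.2 / n.2.2 ^ 2) + v.2.1 * u.2.1 / n.2.1 ^ 2 +
        (conj u.1.1 * v.1.1 + conj u.1.2 * v.1.2) / (nA n : ℂ) -
        vpi n v * (2 * (vpi n u).re : ℝ)) 0 := by
  have hA := nA_pos h.1
  have hA' : ((nA n : ℝ) : ℂ) ≠ 0 := by exact_mod_cast hA.ne'
  have hl : ∀ a b : ℂ, HasDerivAt (fun t : ℝ => a + t • b) b 0 := by
    intro a b
    have := ((hasDerivAt_id (0 : ℝ)).smul_const b).const_add a
    simpa using this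
  have e1 := (hasDerivAt_const (0 : ℝ) v.2.2).fun_div (hl n.2.2 u.2.2) (by simpa using h1)
  have e2 := (hasDerivAt_const (0 : ℝ) v.2.1).fun_div (hl n.2.1 u.2.1) (by simpa using h0)
  have c1 : HasDerivAt (fun t : ℝ => conj (n.1.1 + t • u.1.1)) (conj u.1.1) 0 :=
    (Complex.conjCLE : ℂ →L[ℝ] ℂ).hasFDerivAt.comp_hasDerivAt 0 (hl n.1.1 u.1.1)
  have c2 : HasDerivAt (fun t : ℝ => conj (n.1.2 + t • u.1.2)) (conj u.1.2) 0 :=
    (Complex.conjCLE : ℂ →L[ℝ] ℂ).hasFDerivAt.comp_hasDerivAt 0 (hl n.1.2 u.1.2)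
  have cA : HasDerivAt (fun t : ℝ => ((nA (n + t • u) : ℝ) : ℂ))
      ((2 * nA n * (vpi n u).re : ℝ) : ℂ) 0 :=
    Complex.ofRealCLM.hasFDerivAt.comp_hasDerivAt 0 (hd_nA n u)
  have e3 := ((c1.mul_const v.1.1).fun_add (c2.mul_const v.1.2)).fun_div cA (by simpa using hA.ne')
  have hfin := (e1.fun_sub e2).fun_add e3
  refine (show HasDerivAt (fun t : ℝ => kap (n + t • u) v) _ 0 from hfin).congr_deriv ?_
  simp only [zero_smul, add_zero, zero_mul, zero_sub]
  generalize (vpi n u).re = r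
  rw [vpi]
  push_cast
  field_simp
  ring

/-- The connection form. -/
noncomputable def gam (n : V8) : V8 →L[ℝ] ℝ :=
  LinearMap.toContinuousLinearMap
    { toFun := fun u => (kap n u).im
      map_add' := by
        intro u v
        simp only [kap, vpi_add, Prod.fst_add, Prod.snd_add, add_div, Complex.add_im,
          Complex.sub_im]
        ring
      map_smul' := by
        intro r u
        simp only [kap, vpi_smul, Prod.smul_fst, Prod.smul_snd, Complex.real_smul, mul_div_assoc,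
          Complex.add_im, Complex.sub_im, Complex.im_ofReal_mul,
          RingHom.id_apply, smul_eq_mul]
        ring }

@[simp] lemma gam_apply (n u : V8) : gam n u = (kap n u).im := rfl

lemma cd_gam {k : WithTop ℕ∞} {n : V8} (h : n ∈ Pairs) (h0 : n.2.1 ≠ 0) (h1 : n.2.2 ≠ 0)
    (v : V8) : ContDiffAt ℝ k (fun m => gam m v) n := by
  simp only [gam_apply]
  refine cd_im ?_
  simp only [kap, div_eq_mul_inv]
  have hid : ContDiffAt ℝ k (fun m : V8 => m) n := contDiffAt_id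
  exact ((contDiffAt_const.mul (ContDiffAt.inv hid.snd.snd h1)).sub
    (contDiffAt_const.mul (ContDiffAt.inv hid.snd.fst h0))).add (cd_vpi hid contDiffAt_const h)

/-- the algebraic identity `dσ = A₁` -/
lemma dgam_alg {n : V8} (h : n ∈ Pairs) (u v : V8) :
    (-(v.2.2 * u.2.2 / n.2.2 ^ 2) + v.2.1 * u.2.1 / n.2.1 ^ 2 +
        (conj u.1.1 * v.1.1 + conj u.1.2 * v.1.2) / (nA n : ℂ) -
        vpi n v * (2 * (vpi n u).re : ℝ)).im -
    (-(u.2.2 * v.2.2 / n.2.2 ^ 2) + u.2.1 * v.2.1 / n.2.1 ^ 2 +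
        (conj v.1.1 * u.1.1 + conj v.1.2 * u.1.2) / (nA n : ℂ) -
        vpi n u * (2 * (vpi n v).re : ℝ)).im = (conj (chi n u) * chi n v).im := by
  have hA := nA_pos h.1
  have hs : Real.sqrt 2 * Real.sqrt 2 = 2 := Real.mul_self_sqrt (by norm_num)
  have e1 : (conj (chi n u) * chi n v).im = 2 / (nA n) ^ 2 *
      (conj (n.1.1 * u.1.2 - n.1.2 * u.1.1) * (n.1.1 * v.1.2 - n.1.2 * v.1.1)).im := by
    rw [chi, chi, map_mul, Complex.conj_ofReal]
    have : ((Real.sqrt 2 / nA n : ℝ) : ℂ) * conj (n.1.1 * u.1.2 - n.1.2 * u.1.1) *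
        (((Real.sqrt 2 / nA n : ℝ) : ℂ) * (n.1.1 * v.1.2 - n.1.2 * v.1.1))
        = ((Real.sqrt 2 / nA n * (Real.sqrt 2 / nA n) : ℝ) : ℂ) *
        (conj (n.1.1 * u.1.2 - n.1.2 * u.1.1) * (n.1.1 * v.1.2 - n.1.2 * v.1.1)) := by
      push_cast
      ring
    rw [this, Complex.im_ofReal_mul, div_mul_div_comm, hs, sq]
  rw [e1]
  simp only [vpi, Complex.add_im, Complex.sub_im, Complex.neg_im, Complex.div_ofReal_im,
    Complex.div_ofReal_re, Complex.im_mul_ofReal]
  rw [mul_comm v.2.2 u.2.2, mul_comm v.2.1 u.2.1]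
  generalize (u.2.2 * v.2.2 / n.2.2 ^ 2).im = q1
  generalize (u.2.1 * v.2.1 / n.2.1 ^ 2).im = q2
  field_simp
  simp only [nA, Complex.normSq_apply, Complex.add_re, Complex.sub_re,
    Complex.sub_im, Complex.mul_re, Complex.mul_im, Complex.conj_re, Complex.conj_im]
  ring

/-- the algebraic identity `dS ∧ γ = A₂` -/
lemma dhgt_alg {n : V8} (h : n ∈ Pairs) (h0 : n.2.1 ≠ 0) (h1 : n.2.2 ≠ 0) (u v : V8) :
    (1 - hgt n ^ 2) * (kap n u).re * (kap n v).im - (1 - hgt n ^ 2) * (kap n v).re * (kap n u).im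
      = (conj (psi n u) * psi n v).im := by
  have hA := nA_pos h.1
  have hN := nN_pos h
  have hpsi : ∀ w : V8, psi n w = ((2 * Real.sqrt (nA n) / nN n : ℝ) : ℂ) *
      (n.2.1 * n.2.2 * kap n w) := by
    intro w
    rw [psi, kap]
    congr 1
    field_simp
    ring
  have hs : Real.sqrt (nA n) * Real.sqrt (nA n) = nA n := Real.mul_self_sqrt hA.le
  have e1 : (conj (psi n u) * psi n v).im = 4 * nA n / (nN n) ^ 2 *
      (Complex.normSq n.2.1 * Complex.normSq n.2.2) * (conj (kap n u) * kap n v).im := by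
    rw [hpsi, hpsi, map_mul, map_mul, map_mul, Complex.conj_ofReal]
    have : ((2 * Real.sqrt (nA n) / nN n : ℝ) : ℂ) * (conj n.2.1 * conj n.2.2 * conj (kap n u)) *
        (((2 * Real.sqrt (nA n) / nN n : ℝ) : ℂ) * (n.2.1 * n.2.2 * kap n v))
        = ((2 * Real.sqrt (nA n) / nN n * (2 * Real.sqrt (nA n) / nN n) *
          (Complex.normSq n.2.1 * Complex.normSq n.2.2) : ℝ) : ℂ) *
          (conj (kap n u) * kap n v) := by
      push_cast
      rw [Complex.normSq_eq_conj_mul_self, Complex.normSq_eq_conj_mul_self]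
      ring
    rw [this, Complex.im_ofReal_mul]
    congr 2
    rw [div_mul_div_comm, sq]
    congr 1
    linear_combination 4 * hs
  rw [e1]
  have e2 : 1 - hgt n ^ 2 = 4 * nA n / (nN n) ^ 2 *
      (Complex.normSq n.2.1 * Complex.normSq n.2.2) := by
    have hN' := hN.ne'
    rw [hgt]
    rw [nN] at hN' ⊢
    field_simp
    ring
  rw [e2, Complex.mul_im, Complex.conj_re, Complex.conj_im]
  ring

/-- the forms `a(S) A₁ + b(S) A₂` upstairs -/
noncomputable def upForm (a b : ℝ → ℝ) (n : V8) : V8 [⋀^Fin 2]→L[ℝ] ℝ :=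
  (a (hgt n) • A1 + b (hgt n) • A2).compContinuousLinearMap (cof n)

lemma upForm_apply (a b : ℝ → ℝ) (n : V8) (v : Fin 2 → V8) :
    upForm a b n v = a (hgt n) * (conj (chi n (v 0)) * chi n (v 1)).im +
      b (hgt n) * (conj (psi n (v 0)) * psi n (v 1)).im := rfl

lemma cd_upForm {a b : ℝ → ℝ} (ha : ContDiff ℝ ∞ a) (hb : ContDiff ℝ ∞ b) {n : V8}
    (h : n ∈ Pairs) : ContDiffAt ℝ ∞ (upForm a b) n := by
  refine contDiffAt_of_eval fun v => ?_
  simp only [upForm_apply]
  have hid : ContDiffAt ℝ ∞ (fun m : V8 => m) n := contDiffAt_id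
  have hS : ContDiffAt ℝ ∞ (fun m : V8 => hgt m) n := cd_hgt hid h
  exact ((ha.contDiffAt.comp n hS).mul (cd_im ((cd_conj (cd_chi hid contDiffAt_const h)).mul
    (cd_chi hid contDiffAt_const h)))).add ((hb.contDiffAt.comp n hS).mul
    (cd_im ((cd_conj (cd_psi hid contDiffAt_const h)).mul (cd_psi hid contDiffAt_const h))))

/-- the primitive `a(S) γ` -/
noncomputable def prim (a : ℝ → ℝ) (n : V8) : V8 [⋀^Fin 1]→L[ℝ] ℝ :=
  ContinuousAlternatingMap.ofSubsingleton ℝ V8 ℝ (0 : Fin 1) (a (hgt n) • gam n)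

lemma prim_apply (a : ℝ → ℝ) (n : V8) (v : Fin 1 → V8) :
    prim a n v = a (hgt n) * gam n (v 0) := rfl

lemma cd_prim {a : ℝ → ℝ} (ha : ContDiff ℝ ∞ a) {n : V8}
    (h : n ∈ Pairs) (h0 : n.2.1 ≠ 0) (h1 : n.2.2 ≠ 0) : ContDiffAt ℝ ∞ (prim a) n := by
  refine contDiffAt_of_eval fun v => ?_
  simp only [prim_apply]
  have hid : ContDiffAt ℝ ∞ (fun m : V8 => m) n := contDiffAt_id
  have hS : ContDiffAt ℝ ∞ (fun m : V8 => hgt m) n := cd_hgt hid h
  exact (ha.contDiffAt.comp n hS).mul (cd_gam h h0 h1 _)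

lemma extDeriv_prim {a b : ℝ → ℝ} (ha : ContDiff ℝ ∞ a) (hab : ∀ s, HasDerivAt a (b s) s)
    {n : V8} (h : n ∈ Pairs) (h0 : n.2.1 ≠ 0) (h1 : n.2.2 ≠ 0) :
    extDeriv (prim a) n = upForm a b n := by
  ext v
  have hd : DifferentiableAt ℝ (prim a) n := (cd_prim ha h h0 h1).differentiableAt (by simp)
  have key : ∀ u w : V8, fderiv ℝ (fun m => a (hgt m) * gam m w) n u =
      b (hgt n) * ((1 - hgt n ^ 2) * (kap n u).re) * (kap n w).im + a (hgt n) *
      (-(w.2.2 * u.2.2 / n.2.2 ^ 2) + w.2.1 * u.2.1 / n.2.1 ^ 2 +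
        (conj u.1.1 * w.1.1 + conj u.1.2 * w.1.2) / (nA n : ℂ) -
        vpi n w * (2 * (vpi n u).re : ℝ)).im := by
    intro u w
    refine fderiv_eq_of_line ?_ ?_
    · have hid : ContDiffAt ℝ ∞ (fun m : V8 => m) n := contDiffAt_id
      have hS : ContDiffAt ℝ ∞ (fun m : V8 => hgt m) n := cd_hgt hid h
      exact ((ha.contDiffAt.comp n hS).mul (cd_gam h h0 h1 w)).differentiableAt (by simp)
    · have e1 : HasDerivAt (fun t : ℝ => a (hgt (n + t • u)))
          (b (hgt n) * ((1 - hgt n ^ 2) * (kap n u).re)) 0 := by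
        have h2 : HasDerivAt a (b (hgt n)) (hgt (n + (0 : ℝ) • u)) := by simpa using hab (hgt n)
        exact h2.comp (0 : ℝ) (hd_hgt h h0 h1 u)
      have e2 : HasDerivAt (fun t : ℝ => gam (n + t • u) w)
          (-(w.2.2 * u.2.2 / n.2.2 ^ 2) + w.2.1 * u.2.1 / n.2.1 ^ 2 +
        (conj u.1.1 * w.1.1 + conj u.1.2 * w.1.2) / (nA n : ℂ) -
        vpi n w * (2 * (vpi n u).re : ℝ)).im 0 :=
        Complex.imCLM.hasFDerivAt.comp_hasDerivAt 0 (hd_kap h h0 h1 u w)
      have e3 := e1.fun_mul e2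
      simpa using e3
  rw [extDeriv_apply hd, Fin.sum_univ_two]
  have r0 : (fun m => prim a m ((0 : Fin 2).removeNth v)) = fun m => a (hgt m) * gam m (v 1) := by
    funext m
    rw [prim_apply]
    rfl
  have r1 : (fun m => prim a m ((1 : Fin 2).removeNth v)) = fun m => a (hgt m) * gam m (v 0) := by
    funext m
    rw [prim_apply]
    rfl
  rw [r0, r1, key, key, upForm_apply, ← dgam_alg h (v 0) (v 1), ← dhgt_alg h h0 h1 (v 0) (v 1)]
  simp only [Fin.val_zero, Fin.val_one, pow_zero, pow_one, one_smul, neg_smul]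
  ring

/-- The forms `a(S) A₁ + a'(S) A₂` are closed. -/
theorem extDeriv_upForm {a b : ℝ → ℝ} (ha : ContDiff ℝ ∞ a) (hb : ContDiff ℝ ∞ b)
    (hab : ∀ s, HasDerivAt a (b s) s) {n : V8} (h : n ∈ Pairs) :
    extDeriv (upForm a b) n = 0 := by
  -- first where `y₀ y₁ ≠ 0`
  have hgen : ∀ m ∈ Pairs, m.2.1 ≠ 0 → m.2.2 ≠ 0 → extDeriv (upForm a b) m = 0 := by
    intro m hm h0 h1
    have hev : ∀ᶠ m' in 𝓝 m, m' ∈ Pairs ∧ m'.2.1 ≠ 0 ∧ m'.2.2 ≠ 0 := by
      have c1 : ContinuousAt (fun m' : V8 => m'.1) m := continuousAt_fst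
      have c2 : ContinuousAt (fun m' : V8 => m'.2) m := continuousAt_snd
      have c3 : ContinuousAt (fun m' : V8 => m'.2.1) m := by fun_prop
      have c4 : ContinuousAt (fun m' : V8 => m'.2.2) m := by fun_prop
      filter_upwards [c1.eventually_ne hm.1, c2.eventually_ne hm.2, c3.eventually_ne h0,
        c4.eventually_ne h1] with m' a1 a2 a3 a4
      exact ⟨⟨a1, a2⟩, a3, a4⟩
    have heq : upForm a b =ᶠ[𝓝 m] extDeriv (prim a) := by
      filter_upwards [hev] with m' hm'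
      exact (extDeriv_prim ha hab hm'.1 hm'.2.1 hm'.2.2).symm
    rw [heq.extDeriv_eq]
    refine extDeriv_extDeriv_apply (cd_prim ha hm h0 h1) ?_
    rw [minSmoothness_of_isRCLikeNormedField]
    norm_cast
  -- then everywhere, by density
  have hcont : ContinuousAt (extDeriv (upForm a b)) n := by
    have h1 : ContinuousAt (fderiv ℝ (upForm a b)) n :=
      ((cd_upForm ha hb h).fderiv_right (m := 0) (by simp)).continuousAt
    exact (ContinuousAlternatingMap.alternatizeUncurryFinCLM ℝ V8 ℝ).continuous.continuousAt.comp h1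
  set w : V8 := (0, ((1 : ℂ), (1 : ℂ))) with hw
  have hline : ContinuousAt (fun t : ℝ => n + t • w) 0 := by fun_prop
  have ht : Tendsto (fun t : ℝ => extDeriv (upForm a b) (n + t • w)) (𝓝[≠] 0)
      (𝓝 (extDeriv (upForm a b) n)) := by
    have h1 : Tendsto (fun t : ℝ => n + t • w) (𝓝[≠] 0) (𝓝 n) := by
      have := hline.tendsto
      simp only [zero_smul, add_zero] at this
      exact this.mono_left nhdsWithin_le_nhds
    exact hcont.tendsto.comp h1
  have hz : ∀ᶠ t : ℝ in 𝓝[≠] 0, extDeriv (upForm a b) (n + t • w) = 0 := by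
    have g1 : ∀ᶠ t : ℝ in 𝓝[≠] 0, n.2.1 + (t : ℂ) ≠ 0 := by
      by_cases h0 : n.2.1 = 0
      · filter_upwards [self_mem_nhdsWithin] with t ht
        rw [h0, zero_add]
        exact_mod_cast ht
      · have : ContinuousAt (fun t : ℝ => n.2.1 + (t : ℂ)) 0 := by fun_prop
        exact (this.eventually_ne (by simpa using h0)).filter_mono nhdsWithin_le_nhds
    have g2 : ∀ᶠ t : ℝ in 𝓝[≠] 0, n.2.2 + (t : ℂ) ≠ 0 := by
      by_cases h0 : n.2.2 = 0
      · filter_upwards [self_mem_nhdsWithin] with t ht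
        rw [h0, zero_add]
        exact_mod_cast ht
      · have : ContinuousAt (fun t : ℝ => n.2.2 + (t : ℂ)) 0 := by fun_prop
        exact (this.eventually_ne (by simpa using h0)).filter_mono nhdsWithin_le_nhds
    filter_upwards [g1, g2] with t ht1 ht2
    have k1 : (n + t • w).2.1 = n.2.1 + (t : ℂ) := by simp [hw]
    have k2 : (n + t • w).2.2 = n.2.2 + (t : ℂ) := by simp [hw]
    have k3 : (n + t • w).1 = n.1 := by simp [hw]
    refine hgen _ ⟨?_, ?_⟩ (by rw [k1]; exact ht1) (by rw [k2]; exact ht2)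
    · rw [k3]; exact h.1
    · intro hcon
      apply ht1
      rw [← k1, hcon]
      rfl
  have hlim : Tendsto (fun t : ℝ => extDeriv (upForm a b) (n + t • w)) (𝓝[≠] 0) (𝓝 0) :=
    tendsto_const_nhds.congr' (hz.mono fun t ht => ht.symm)
  exact tendsto_nhds_unique ht hlim

end Pool.Agent.LibMixed
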