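import Mathlib
import Pool.Agent.Lib_MP_dc226a_gt.Closed

set_option autoImplicit false

open Set Filter Topology ComplexConjugate ContDiff Manifold

namespace Pool.Agent.LibMixed

variable {E : Type*} [NormedAddCommGroup E] [NormedSpace ℝ E]
  {X : Type*} [TopologicalSpace X] [ChartedSpace E X]

lemma isOpen_Pairs : IsOpen Pairs := by
  have h1 : IsOpen {n : V8 | n.1 ≠ 0} := isOpen_ne_fun continuous_fst continuous_const
  have h2 : IsOpen {n : V8 | n.2 ≠ 0} := isOpen_ne_fun continuous_snd continuous_const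
  exact h1.inter h2

section Charts

variable [IsManifold 𝓘(ℝ, E) ∞ X]

lemma contDiffAt_chart_comp {p : V8 → X} (hp : IsOrbitProjection (E := E) p) {n : V8}
    (hn : n ∈ Pairs) {x₀ : X} (hx : p n ∈ (chartAt E x₀).source) :
    ContDiffAt ℝ ∞ (chartAt E x₀ ∘ p) n := by
  have h1 : ContMDiffAt 𝓘(ℝ, V8) 𝓘(ℝ, E) ∞ p n :=
    hp.smooth.contMDiffAt (isOpen_Pairs.mem_nhds hn)
  have h2 : ContMDiffAt 𝓘(ℝ, E) 𝓘(ℝ, E) ∞ (chartAt E x₀) (p n) :=
    contMDiffAt_of_mem_maximalAtlas (IsManifold.chart_mem_maximalAtlas x₀) hx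
  exact (h2.comp n h1).contDiffAt

lemma contDiffAt_trans {x₀ x₁ : X} {z : E} (hz : z ∈ (chartAt E x₀).target)
    (hz' : (chartAt E x₀).symm z ∈ (chartAt E x₁).source) :
    ContDiffAt ℝ ∞ (chartAt E x₁ ∘ (chartAt E x₀).symm) z := by
  have h1 : ContMDiffAt 𝓘(ℝ, E) 𝓘(ℝ, E) ∞ (chartAt E x₀).symm z :=
    contMDiffAt_symm_of_mem_maximalAtlas (IsManifold.chart_mem_maximalAtlas x₀) hz
  have h2 : ContMDiffAt 𝓘(ℝ, E) 𝓘(ℝ, E) ∞ (chartAt E x₁) ((chartAt E x₀).symm z) :=
    contMDiffAt_of_mem_maximalAtlas (IsManifold.chart_mem_maximalAtlas x₁) hz'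
  exact (h2.comp z h1).contDiffAt

lemma surj_fderiv {p : V8 → X} (hp : IsOrbitProjection (E := E) p) {n : V8}
    (hn : n ∈ Pairs) : Function.Surjective (fderiv ℝ (chartAt E (p n) ∘ p) n) := by
  intro w
  obtain ⟨v, hv⟩ := hp.submersion n hn w
  refine ⟨v, ?_⟩
  rw [← hv, diffMap]
  exact (((contDiffAt_chart_comp hp hn (mem_chart_source E (p n))).differentiableAt
    (by simp)).lineDeriv_eq_fderiv).symm

variable [FiniteDimensional ℝ E]

/-- A submersion has local sections. -/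
lemma exists_local_section {V : Type*} [NormedAddCommGroup V] [NormedSpace ℝ V]
    [FiniteDimensional ℝ V] {f : V → E} {n : V} (hf : ContDiffAt ℝ ∞ f n)
    (hs : Function.Surjective (fderiv ℝ f n)) :
    ∃ τ : E → V, ContDiffAt ℝ ∞ τ (f n) ∧ τ (f n) = n ∧ ∀ᶠ z in 𝓝 (f n), f (τ z) = z := by
  obtain ⟨A, hA⟩ := (fderiv ℝ f n).exists_rightInverse_of_surjective
    (LinearMap.range_eq_top.2 hs)
  set h : E → E := fun z => f (n + A (z - f n)) with hh
  set q : E → V := fun z => n + A (z - f n) with hq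
  have hq0 : q (f n) = n := by simp [hq]
  have hqs : ContDiff ℝ ∞ q := contDiff_const.add (A.contDiff.comp (contDiff_id.sub contDiff_const))
  have hqd : HasFDerivAt q A (f n) := by
    have h1 : HasFDerivAt (fun z : E => z - f n) (ContinuousLinearMap.id ℝ E) (f n) :=
      (hasFDerivAt_id (f n)).sub_const (f n)
    have h2 : HasFDerivAt (fun z : E => A (z - f n)) (A.comp (ContinuousLinearMap.id ℝ E)) (f n) :=
      HasFDerivAt.comp (g := A) (f := fun z : E => z - f n) (f n) A.hasFDerivAt h1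
    have h3 := h2.const_add n
    simpa [hq] using h3
  have hhs : ContDiffAt ℝ ∞ h (f n) := by
    have : ContDiffAt ℝ ∞ f (q (f n)) := by rw [hq0]; exact hf
    exact this.comp (f n) hqs.contDiffAt
  have hhd : HasFDerivAt h ((ContinuousLinearEquiv.refl ℝ E : E ≃L[ℝ] E) : E →L[ℝ] E) (f n) := by
    have h1 : HasFDerivAt f (fderiv ℝ f n) (q (f n)) := by
      rw [hq0]
      exact (hf.differentiableAt (by simp)).hasFDerivAt
    have h2 := h1.comp (f n) hqd
    rw [hA] at h2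
    exact h2
  have hh0 : h (f n) = f n := by rw [hh]; simp
  have hn0 : (∞ : WithTop ℕ∞) ≠ 0 := by simp
  refine ⟨fun z => q (hhs.localInverse hhd hn0 z), ?_, ?_, ?_⟩
  · have h1 := hhs.to_localInverse hhd hn0
    rw [hh0] at h1
    exact hqs.contDiffAt.comp (f n) h1
  · have h1 := hhs.localInverse_apply_image hhd hn0
    rw [hh0] at h1
    change q (hhs.localInverse hhd hn0 (f n)) = n
    rw [h1, hq0]
  · have h1 := (hhs.hasStrictFDerivAt' hhd hn0).eventually_right_inverse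
    rw [hh0] at h1
    exact h1

/-- local sections of `p`, in any chart -/
lemma exists_section {p : V8 → X} (hp : IsOrbitProjection (E := E) p) {n : V8}
    (hn : n ∈ Pairs) {x₀ : X} (hx : p n ∈ (chartAt E x₀).source) :
    ∃ τ : E → V8, ContDiffAt ℝ ∞ τ (chartAt E x₀ (p n)) ∧ τ (chartAt E x₀ (p n)) = n ∧
      ∀ᶠ z in 𝓝 (chartAt E x₀ (p n)), p (τ z) = (chartAt E x₀).symm z := by
  set φ := chartAt E x₀ with hφ
  set ψ := chartAt E (p n) with hψ
  have hsrc : p n ∈ ψ.source := mem_chart_source E (p n)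
  obtain ⟨τ, hτ1, hτ2, hτ3⟩ := exists_local_section (contDiffAt_chart_comp hp hn hsrc)
    (surj_fderiv hp hn)
  have hz0 : φ (p n) ∈ φ.target := φ.map_source hx
  have hz1 : φ.symm (φ (p n)) = p n := φ.left_inv hx
  have htr : ContDiffAt ℝ ∞ (ψ ∘ φ.symm) (φ (p n)) :=
    contDiffAt_trans hz0 (by rw [← hφ, hz1]; exact hsrc)
  have htr0 : (ψ ∘ φ.symm) (φ (p n)) = ψ (p n) := by rw [Function.comp_apply, hz1]
  refine ⟨τ ∘ (ψ ∘ φ.symm), ?_, ?_, ?_⟩
  · have : ContDiffAt ℝ ∞ τ ((ψ ∘ φ.symm) (φ (p n))) := by rw [htr0]; exact hτ1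
    exact this.comp _ htr
  · rw [Function.comp_apply, htr0]
    exact hτ2
  · have hcτ : ContinuousAt (p ∘ τ) (ψ (p n)) := by
      have h1 : ContinuousAt p (τ (ψ (p n))) := by
        change ContinuousAt p (τ ((ψ ∘ p) n))
        rw [hτ2]
        exact (hp.smooth.contMDiffAt (isOpen_Pairs.mem_nhds hn)).continuousAt
      exact h1.comp hτ1.continuousAt
    have hev1 : ∀ᶠ w in 𝓝 (ψ (p n)), p (τ w) ∈ ψ.source := by
      refine hcτ.eventually_mem (ψ.open_source.mem_nhds ?_)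
      change p (τ ((ψ ∘ p) n)) ∈ ψ.source
      rw [hτ2]
      exact hsrc
    have hev2 : ∀ᶠ w in 𝓝 (ψ (p n)), p (τ w) = ψ.symm w := by
      filter_upwards [hev1, hτ3] with w hw1 hw2
      have := ψ.left_inv hw1
      rw [← this]
      congr 1
    have hev3 : ∀ᶠ z in 𝓝 (φ (p n)), p (τ ((ψ ∘ φ.symm) z)) = ψ.symm ((ψ ∘ φ.symm) z) := by
      have ht := htr.continuousAt.tendsto
      rw [htr0] at ht
      exact ht.eventually hev2
    have hev4 : ∀ᶠ z in 𝓝 (φ (p n)), φ.symm z ∈ ψ.source := by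
      have hc : ContinuousAt φ.symm (φ (p n)) := φ.continuousAt_symm hz0
      refine hc.eventually_mem (ψ.open_source.mem_nhds ?_)
      rw [hz1]
      exact hsrc
    filter_upwards [hev3, hev4] with z hz3 hz4
    rw [Function.comp_apply, hz3, Function.comp_apply, ψ.left_inv hz4]

end Charts

end Pool.Agent.LibMixed
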