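import Mathlib
import Pool.Agent.Lib_MP_dc226a_gt.Descent

set_option autoImplicit false

open Set Filter Topology ComplexConjugate ContDiff Manifold

namespace Pool.Agent.LibMixed

variable {E : Type*} [NormedAddCommGroup E] [NormedSpace ℝ E]
  {X : Type*} [TopologicalSpace X] [ChartedSpace E X]

lemma sameOrbit_iff (n n' : V8) : SameOrbit n n' ↔ ∃ l m : ℂ, l ≠ 0 ∧ m ≠ 0 ∧ n' = act l m n :=
  Iff.rfl

lemma p_act {p : V8 → X} (hp : IsOrbitProjection (E := E) p) {n : V8} (hn : n ∈ Pairs)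
    {l m : ℂ} (hl : l ≠ 0) (hm : m ≠ 0) : p (act l m n) = p n :=
  ((hp.fibres n hn _ (act_mem hl hm hn)).2 ⟨l, m, hl, hm, rfl⟩).symm

lemma hasDerivAt_exp_mul (s : ℂ) : HasDerivAt (fun r : ℝ => Complex.exp ((r : ℂ) * s)) s 0 := by
  have h1 : HasDerivAt (fun r : ℝ => (r : ℂ) * s) s 0 := by
    have := ((hasDerivAt_id (0 : ℝ)).ofReal_comp).mul_const s
    simpa using this
  have h2 := h1.cexp
  simpa using h2

lemma hasDerivAt_act (n : V8) (s t : ℂ) :
    HasDerivAt (fun r : ℝ => act (Complex.exp ((r : ℂ) * s)) (Complex.exp ((r : ℂ) * t)) n)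
      (vert n s t) 0 := by
  have h1 := (hasDerivAt_exp_mul s).mul_const n.1.1
  have h2 := (hasDerivAt_exp_mul s).mul_const n.1.2
  have h3 := (hasDerivAt_exp_mul t).mul_const n.2.1
  have h4 := (hasDerivAt_exp_mul (t - s)).mul_const n.2.2
  have h := (h1.prodMk h2).prodMk (h3.prodMk h4)
  have he : (fun r : ℝ => act (Complex.exp ((r : ℂ) * s)) (Complex.exp ((r : ℂ) * t)) n)
      = fun r : ℝ => ((Complex.exp ((r : ℂ) * s) * n.1.1, Complex.exp ((r : ℂ) * s) * n.1.2),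
        (Complex.exp ((r : ℂ) * t) * n.2.1, Complex.exp ((r : ℂ) * (t - s)) * n.2.2)) := by
    funext r
    rw [act, ← Complex.exp_neg, ← Complex.exp_add]
    congr 4
    ring
  rw [he]
  exact h

section Charts

variable [IsManifold 𝓘(ℝ, E) ∞ X]

lemma fderiv_vert {p : V8 → X} (hp : IsOrbitProjection (E := E) p) {n : V8}
    (hn : n ∈ Pairs) {x₀ : X} (hx : p n ∈ (chartAt E x₀).source) (s t : ℂ) :
    fderiv ℝ (chartAt E x₀ ∘ p) n (vert n s t) = 0 := by
  have hd : DifferentiableAt ℝ (chartAt E x₀ ∘ p) n :=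
    (contDiffAt_chart_comp hp hn hx).differentiableAt (by simp)
  have h0 : act (Complex.exp (((0 : ℝ) : ℂ) * s)) (Complex.exp (((0 : ℝ) : ℂ) * t)) n = n := by
    simp [act]
  have h1 : HasDerivAt (fun r : ℝ => (chartAt E x₀ ∘ p)
      (act (Complex.exp ((r : ℂ) * s)) (Complex.exp ((r : ℂ) * t)) n))
      (fderiv ℝ (chartAt E x₀ ∘ p) n (vert n s t)) 0 := by
    refine HasFDerivAt.comp_hasDerivAt (l := chartAt E x₀ ∘ p) (0 : ℝ) ?_ (hasDerivAt_act n s t)
    rw [h0]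
    exact hd.hasFDerivAt
  have h2 : (fun r : ℝ => (chartAt E x₀ ∘ p)
      (act (Complex.exp ((r : ℂ) * s)) (Complex.exp ((r : ℂ) * t)) n))
      = fun _ => (chartAt E x₀ ∘ p) n := by
    funext r
    rw [Function.comp_apply, p_act hp hn (Complex.exp_ne_zero _) (Complex.exp_ne_zero _)]
    rfl
  rw [h2] at h1
  exact h1.unique (hasDerivAt_const _ _)

/-- the action as a linear map -/
noncomputable def actL (l m : ℂ) : V8 →L[ℝ] V8 :=
  LinearMap.toContinuousLinearMap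
    { toFun := act l m
      map_add' := by
        intro u v
        simp only [act, Prod.fst_add, Prod.snd_add, mul_add, Prod.mk_add_mk]
      map_smul' := by
        intro r u
        simp only [act, Prod.smul_fst, Prod.smul_snd, Complex.real_smul, RingHom.id_apply,
          Prod.smul_mk]
        congr 2 <;> ring_nf }

@[simp] lemma actL_apply (l m : ℂ) (u : V8) : actL l m u = act l m u := rfl

lemma fderiv_act {p : V8 → X} (hp : IsOrbitProjection (E := E) p) {n : V8}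
    (hn : n ∈ Pairs) {x₀ : X} (hx : p n ∈ (chartAt E x₀).source) {l m : ℂ} (hl : l ≠ 0)
    (hm : m ≠ 0) (u : V8) :
    fderiv ℝ (chartAt E x₀ ∘ p) (act l m n) (act l m u) = fderiv ℝ (chartAt E x₀ ∘ p) n u := by
  have hx' : p (act l m n) ∈ (chartAt E x₀).source := by rw [p_act hp hn hl hm]; exact hx
  have hd : DifferentiableAt ℝ (chartAt E x₀ ∘ p) (actL l m n) :=
    (contDiffAt_chart_comp hp (act_mem hl hm hn) hx').differentiableAt (by simp)
  have heq : (chartAt E x₀ ∘ p) ∘ (actL l m) =ᶠ[𝓝 n] chartAt E x₀ ∘ p := by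
    filter_upwards [isOpen_Pairs.mem_nhds hn] with n' hn'
    simp only [Function.comp_apply, actL_apply]
    rw [p_act hp hn' hl hm]
  have h1 := heq.fderiv_eq (𝕜 := ℝ)
  rw [fderiv_comp n hd (actL l m).differentiableAt, ContinuousLinearMap.fderiv] at h1
  exact congrArg (fun L : V8 →L[ℝ] E => L u) h1

variable [FiniteDimensional ℝ E]

lemma finrank_V8 : Module.finrank ℝ V8 = 8 := by
  simp [Module.finrank_prod, Complex.finrank_real_complex]

lemma finrank_W4 : Module.finrank ℝ (ℂ × ℂ) = 4 := by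
  simp [Module.finrank_prod, Complex.finrank_real_complex]

lemma ker_le {p : V8 → X} (hp : IsOrbitProjection (E := E) p) (hE : Module.finrank ℝ E = 4)
    {n : V8} (hn : n ∈ Pairs) {u : V8} (hu : fderiv ℝ (chartAt E (p n) ∘ p) n u = 0) :
    cof n u = 0 := by
  set D := fderiv ℝ (chartAt E (p n) ∘ p) n with hD
  have hle : LinearMap.ker (cof n : V8 →ₗ[ℝ] ℂ × ℂ) ≤ LinearMap.ker (D : V8 →ₗ[ℝ] E) := by
    intro w hw
    obtain ⟨s, t, rfl⟩ := cof_ker hn hw
    exact fderiv_vert hp hn (mem_chart_source E (p n)) s t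
  have h1 : Module.finrank ℝ (LinearMap.ker (cof n : V8 →ₗ[ℝ] ℂ × ℂ)) = 4 := by
    have h := LinearMap.finrank_range_add_finrank_ker (cof n : V8 →ₗ[ℝ] ℂ × ℂ)
    have hr : LinearMap.range (cof n : V8 →ₗ[ℝ] ℂ × ℂ) = ⊤ :=
      LinearMap.range_eq_top.2 (cof_surj hn)
    rw [hr, finrank_top, finrank_V8, finrank_W4] at h
    omega
  have h2 : Module.finrank ℝ (LinearMap.ker (D : V8 →ₗ[ℝ] E)) = 4 := by
    have h := LinearMap.finrank_range_add_finrank_ker (D : V8 →ₗ[ℝ] E)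
    have hr : LinearMap.range (D : V8 →ₗ[ℝ] E) = ⊤ :=
      LinearMap.range_eq_top.2 (surj_fderiv hp hn)
    rw [hr, finrank_top, finrank_V8, hE] at h
    omega
  have heq := Submodule.eq_of_le_of_finrank_eq hle (by rw [h1, h2])
  have hu' : u ∈ LinearMap.ker (D : V8 →ₗ[ℝ] E) := hu
  rw [← heq] at hu'
  exact hu'

lemma exists_frame {p : V8 → X} (hp : IsOrbitProjection (E := E) p)
    (hE : Module.finrank ℝ E = 4) (x : X) :
    ∃ (T : E →L[ℝ] ℂ × ℂ) (s : ℝ), Function.Bijective T ∧ ∀ n ∈ Pairs, p n = x →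
      s = hgt n ∧ ∃ c : ℂ × ℂ, ‖c.1‖ = 1 ∧ ‖c.2‖ = 1 ∧
        ∀ u, T (fderiv ℝ (chartAt E x ∘ p) n u) = rot c (cof n u) := by
  obtain ⟨n₀, hn₀, rfl⟩ := hp.surjective x
  obtain ⟨A, hA⟩ := (fderiv ℝ (chartAt E (p n₀) ∘ p) n₀).exists_rightInverse_of_surjective
    (LinearMap.range_eq_top.2 (surj_fderiv hp hn₀))
  have hAa : ∀ w, fderiv ℝ (chartAt E (p n₀) ∘ p) n₀ (A w) = w := fun w =>
    congrArg (fun L : E →L[ℝ] E => L w) hA
  have hT : ∀ u, (cof n₀) (A (fderiv ℝ (chartAt E (p n₀) ∘ p) n₀ u)) = cof n₀ u := by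
    intro u
    rw [← sub_eq_zero, ← map_sub]
    refine ker_le hp hE hn₀ ?_
    rw [map_sub, hAa, sub_self]
  refine ⟨(cof n₀).comp A, hgt n₀, ?_, ?_⟩
  · have hs : Function.Surjective ((cof n₀).comp A) := by
      intro w
      obtain ⟨u, hu⟩ := cof_surj hn₀ w
      exact ⟨fderiv ℝ (chartAt E (p n₀) ∘ p) n₀ u, by
        rw [ContinuousLinearMap.comp_apply, hT, hu]⟩
    have hi : Function.Injective ((cof n₀).comp A : E →ₗ[ℝ] ℂ × ℂ) := by
      rw [LinearMap.injective_iff_surjective_of_finrank_eq_finrank (by rw [hE, finrank_W4])]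
      exact hs
    exact ⟨hi, hs⟩
  · intro n hn hpn
    obtain ⟨l, m, hl, hm, hlm⟩ := (hp.fibres n hn n₀ hn₀).1 hpn
    have hlm' : n₀ = act l m n := hlm
    refine ⟨by rw [hlm', hgt_act hl hm], ?_⟩
    obtain ⟨c, hc1, hc2, hc⟩ := cof_act hl hm n
    refine ⟨c, hc1, hc2, fun u => ?_⟩
    have hx : p n ∈ (chartAt E (p n₀)).source := by rw [hpn]; exact mem_chart_source E (p n₀)
    rw [ContinuousLinearMap.comp_apply, ← fderiv_act hp hn hx hl hm u, ← hc u]
    have := hT (act l m u)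
    rw [← hlm']
    exact this

/-- local expression of the frames -/
lemma local_frames {p : V8 → X} (hp : IsOrbitProjection (E := E) p)
    {T : X → E →L[ℝ] ℂ × ℂ} {s : X → ℝ}
    (hT : ∀ x, ∀ n ∈ Pairs, p n = x → s x = hgt n ∧ ∃ c : ℂ × ℂ, ‖c.1‖ = 1 ∧ ‖c.2‖ = 1 ∧
        ∀ u, T x (fderiv ℝ (chartAt E x ∘ p) n u) = rot c (cof n u))
    (x₀ : X) {z₀ : E} (hz₀ : z₀ ∈ (chartAt E x₀).target) :
    ∃ τ : E → V8, ContDiffAt ℝ ∞ τ z₀ ∧ τ z₀ ∈ Pairs ∧ ∀ᶠ z in 𝓝 z₀,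
      s ((chartAt E x₀).symm z) = hgt (τ z) ∧ ∃ c : ℂ × ℂ, ‖c.1‖ = 1 ∧ ‖c.2‖ = 1 ∧
        ∀ u, T ((chartAt E x₀).symm z) (coordChange x₀ z u) =
          rot c (cof (τ z) (fderiv ℝ τ z u)) := by
  obtain ⟨n₀, hn₀, hpn₀⟩ := hp.surjective ((chartAt E x₀).symm z₀)
  have hx : p n₀ ∈ (chartAt E x₀).source := by
    rw [hpn₀]
    exact (chartAt E x₀).map_target hz₀
  obtain ⟨τ, hτ1, hτ2, hτ3⟩ := exists_section hp hn₀ hx
  have hz : chartAt E x₀ (p n₀) = z₀ := by rw [hpn₀]; exact (chartAt E x₀).right_inv hz₀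
  rw [hz] at hτ1 hτ2 hτ3
  refine ⟨τ, hτ1, by rw [hτ2]; exact hn₀, ?_⟩
  have hd : ∀ᶠ z in 𝓝 z₀, DifferentiableAt ℝ τ z := by
    have h1 : ContDiffAt ℝ 1 τ z₀ := hτ1.of_le (by norm_cast)
    filter_upwards [h1.eventually (by simp)] with z hz
    exact hz.differentiableAt (by simp)
  have hmem : ∀ᶠ z in 𝓝 z₀, τ z ∈ Pairs :=
    hτ1.continuousAt.eventually_mem (isOpen_Pairs.mem_nhds (by rw [hτ2]; exact hn₀))
  filter_upwards [hd, hmem, eventually_eventually_nhds.2 hτ3] with z hzd hzm hzp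
  have hpz : p (τ z) = (chartAt E x₀).symm z := hzp.self_of_nhds
  obtain ⟨h1, c, hc1, hc2, hc⟩ := hT ((chartAt E x₀).symm z) (τ z) hzm hpz
  refine ⟨h1, c, hc1, hc2, fun u => ?_⟩
  rw [← hc]
  congr 1
  have hev : (chartAt E ((chartAt E x₀).symm z) ∘ p) ∘ τ
      =ᶠ[𝓝 z] chartAt E ((chartAt E x₀).symm z) ∘ (chartAt E x₀).symm := by
    filter_upwards [hzp] with z' hz'
    simp only [Function.comp_apply, hz']
  have hdp : DifferentiableAt ℝ (chartAt E ((chartAt E x₀).symm z) ∘ p) (τ z) := by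
    refine (contDiffAt_chart_comp hp hzm ?_).differentiableAt (by simp)
    rw [hpz]
    exact mem_chart_source E _
  rw [coordChange, ← hev.fderiv_eq, fderiv_comp z hdp hzd]
  rfl

end Charts

end Pool.Agent.LibMixed
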