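import Mathlib
import Pool.Agent.Lib_MP_dc226a_gt.Frames

set_option autoImplicit false

open Set Filter Topology ComplexConjugate ContDiff Manifold

namespace Pool.Agent.LibMixed

section Rank

variable {E : Type*} [NormedAddCommGroup E] [NormedSpace ℝ E]

lemma im_conj_mul_add (z w a : ℂ) : (conj (z + w) * a).im = (conj z * a).im + (conj w * a).im := by
  rw [map_add, add_mul, Complex.add_im]

lemma im_conj_mul_smul (r : ℝ) (z a : ℂ) : (conj (r • z) * a).im = r * (conj z * a).im := by
  rw [Complex.real_smul, map_mul, Complex.conj_ofReal, mul_assoc, Complex.im_ofReal_mul]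

lemma im_conj_self (z : ℂ) : (conj z * (Complex.I * z)).im = Complex.normSq z := by
  simp only [Complex.mul_im, Complex.mul_re, Complex.conj_re, Complex.conj_im, Complex.I_re,
    Complex.I_im, Complex.normSq_apply]
  ring

lemma rank_four {T : E →L[ℝ] ℂ × ℂ} (hT : Function.Bijective T) (hE : Module.finrank ℝ E = 4)
    {a b : ℝ} (ha : a ≠ 0) (hb : b ≠ 0) :
    (Set.range fun u v : E => a * (conj (T u).1 * (T v).1).im +
      b * (conj (T u).2 * (T v).2).im).finrank ℝ = 4 := by
  let L : E →ₗ[ℝ] (E → ℝ) :=
    { toFun := fun u v => a * (conj (T u).1 * (T v).1).im + b * (conj (T u).2 * (T v).2).im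
      map_add' := by
        intro u u'
        funext v
        simp only [map_add, Prod.fst_add, Prod.snd_add, Pi.add_apply, add_mul, Complex.add_im]
        ring
      map_smul' := by
        intro r u
        funext v
        simp only [map_smul, Prod.smul_fst, Prod.smul_snd, Pi.smul_apply, im_conj_mul_smul,
          RingHom.id_apply, smul_eq_mul]
        ring }
  have hL : Function.Injective L := by
    rw [← LinearMap.ker_eq_bot, LinearMap.ker_eq_bot']
    intro u hu
    obtain ⟨v1, hv1⟩ := hT.2 (Complex.I * (T u).1, 0)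
    obtain ⟨v2, hv2⟩ := hT.2 (0, Complex.I * (T u).2)
    have h1 : a * (conj (T u).1 * (T v1).1).im + b * (conj (T u).2 * (T v1).2).im = 0 :=
      congrFun hu v1
    have h2 : a * (conj (T u).1 * (T v2).1).im + b * (conj (T u).2 * (T v2).2).im = 0 :=
      congrFun hu v2
    rw [hv1] at h1
    rw [hv2] at h2
    simp only [im_conj_self, mul_zero, Complex.zero_im, add_zero, zero_add, mul_eq_zero, ha, hb,
      false_or, Complex.normSq_eq_zero] at h1 h2
    apply hT.1
    rw [map_zero]
    exact Prod.ext h1 h2
  have h : (Submodule.span ℝ (Set.range L)) = LinearMap.range L := by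
    rw [← LinearMap.coe_range, Submodule.span_eq]
  change Module.finrank ℝ (Submodule.span ℝ (Set.range L)) = 4
  rw [h, LinearMap.finrank_range_of_inj hL, hE]

lemma rank_two {T : E →L[ℝ] ℂ × ℂ} (hT : Function.Bijective T)
    {a : ℝ} (ha : a ≠ 0) :
    (Set.range fun u v : E => a * (conj (T u).1 * (T v).1).im +
      0 * (conj (T u).2 * (T v).2).im).finrank ℝ = 2 := by
  let J : ℂ →ₗ[ℝ] (E → ℝ) :=
    { toFun := fun z v => a * (conj z * (T v).1).im
      map_add' := by
        intro z w
        funext v
        simp only [im_conj_mul_add, Pi.add_apply]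
        ring
      map_smul' := by
        intro r z
        funext v
        simp only [im_conj_mul_smul, Pi.smul_apply, smul_eq_mul, RingHom.id_apply]
        ring }
  have hJ : Function.Injective J := by
    rw [← LinearMap.ker_eq_bot, LinearMap.ker_eq_bot']
    intro z hz
    obtain ⟨v1, hv1⟩ := hT.2 (Complex.I * z, 0)
    have h1 : a * (conj z * (T v1).1).im = 0 := congrFun hz v1
    rw [hv1] at h1
    simpa only [im_conj_self, mul_eq_zero, ha, false_or, Complex.normSq_eq_zero] using h1
  have hr : (Set.range fun u v : E => a * (conj (T u).1 * (T v).1).im +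
      0 * (conj (T u).2 * (T v).2).im) = Set.range J := by
    ext f
    constructor
    · rintro ⟨u, rfl⟩
      refine ⟨(T u).1, ?_⟩
      funext v
      change a * (conj (T u).1 * (T v).1).im = _
      ring
    · rintro ⟨z, rfl⟩
      obtain ⟨u, hu⟩ := hT.2 (z, 0)
      refine ⟨u, ?_⟩
      funext v
      change _ = a * (conj z * (T v).1).im
      simp only [hu]
      ring
  have h : (Submodule.span ℝ (Set.range J)) = LinearMap.range J := by
    rw [← LinearMap.coe_range, Submodule.span_eq]
  rw [hr]
  change Module.finrank ℝ (Submodule.span ℝ (Set.range J)) = 2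
  rw [h, LinearMap.finrank_range_of_inj hJ, Complex.finrank_real_complex]

end Rank

section Vol

variable {F : Type*} [NormedAddCommGroup F] [NormedSpace ℝ F] {k : WithTop ℕ∞} {z : F}

lemma cd_vol4 {f : Fin 4 → F → ℂ × ℂ} (hf : ∀ i, ContDiffAt ℝ k (f i) z) :
    ContDiffAt ℝ k (fun y => vol4 (fun i => f i y)) z := by
  simp only [vol4_apply, Matrix.det_apply]
  refine ContDiffAt.sum fun σ _ => ?_
  refine ContDiffAt.const_smul _ ?_
  refine contDiffAt_prod fun i _ => ?_
  have h1 : ContDiffAt ℝ k (fun y => coords (f (σ i) y)) z :=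
    coords.contDiff.contDiffAt.comp z (hf (σ i))
  exact (contDiffAt_pi.1 h1) i

lemma cd_met {a b : F → ℂ × ℂ} (ha : ContDiffAt ℝ k a z) (hb : ContDiffAt ℝ k b z) :
    ContDiffAt ℝ k (fun y => met (a y) (b y)) z :=
  (cd_re ((cd_conj ha.fst).mul hb.fst)).add (cd_re ((cd_conj ha.snd).mul hb.snd))

lemma vol4_std : vol4 ![((1 : ℂ), (0 : ℂ)), (Complex.I, 0), (0, 1), (0, Complex.I)] = 1 := by
  rw [vol4_apply]
  have : (Matrix.of fun i => coords (![((1 : ℂ), (0 : ℂ)), (Complex.I, 0), (0, 1),
      (0, Complex.I)] i)) = (1 : Matrix (Fin 4) (Fin 4) ℝ) := by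
    ext i j
    fin_cases i <;> fin_cases j <;> simp [coords]
  rw [this, Matrix.det_one]

lemma met_comm (a b : ℂ × ℂ) : met a b = met b a := by
  simp only [met, Complex.mul_re, Complex.conj_re, Complex.conj_im]
  ring

lemma met_pos {a : ℂ × ℂ} (ha : a ≠ 0) : 0 < met a a := by
  have h := normSq_add_pos (a := a.1) (b := a.2) ha
  have : met a a = Complex.normSq a.1 + Complex.normSq a.2 := by
    simp only [met, Complex.mul_re, Complex.conj_re, Complex.conj_im, Complex.normSq_apply]
    ring
  rw [this]
  exact h

lemma met_add (a b c : ℂ × ℂ) : met a (b + c) = met a b + met a c := by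
  simp only [met, Prod.fst_add, Prod.snd_add, mul_add, Complex.add_re]
  ring

lemma met_smul (r : ℝ) (a b : ℂ × ℂ) : met a (r • b) = r * met a b := by
  simp only [met, Prod.smul_fst, Prod.smul_snd, Complex.real_smul, Complex.mul_re,
    Complex.mul_im, Complex.conj_re, Complex.conj_im, Complex.ofReal_re, Complex.ofReal_im]
  ring

end Vol

end Pool.Agent.LibMixed
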