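import Mathlib
import Pool.Agent.Lib_MP_dc226a_gt.Forms

set_option autoImplicit false

open Set Filter Topology ComplexConjugate ContDiff Manifold

namespace Pool.Agent.LibMixed

variable {E : Type*} [NormedAddCommGroup E] [NormedSpace ℝ E]
  {X : Type*} [TopologicalSpace X] [ChartedSpace E X]

/-- the forms `a(S) A₁ + b(S) A₂` on `X` -/
noncomputable def dForm (T : X → E →L[ℝ] ℂ × ℂ) (s : X → ℝ) (a b : ℝ → ℝ) (x : X) :
    E [⋀^Fin 2]→L[ℝ] ℝ :=
  (a (s x) • A1 + b (s x) • A2).compContinuousLinearMap (T x)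

omit [TopologicalSpace X] [ChartedSpace E X] in
lemma dForm_apply (T : X → E →L[ℝ] ℂ × ℂ) (s : X → ℝ) (a b : ℝ → ℝ) (x : X) (v : Fin 2 → E) :
    dForm T s a b x v = a (s x) * (conj (T x (v 0)).1 * (T x (v 1)).1).im +
      b (s x) * (conj (T x (v 0)).2 * (T x (v 1)).2).im := rfl

variable [IsManifold 𝓘(ℝ, E) ∞ X] [FiniteDimensional ℝ E]
  {p : V8 → X} (hp : IsOrbitProjection (E := E) p)
  {T : X → E →L[ℝ] ℂ × ℂ} {s : X → ℝ}
  (hT : ∀ x, ∀ n ∈ Pairs, p n = x → s x = hgt n ∧ ∃ c : ℂ × ℂ, ‖c.1‖ = 1 ∧ ‖c.2‖ = 1 ∧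
        ∀ u, T x (fderiv ℝ (chartAt E x ∘ p) n u) = rot c (cof n u))

include hp hT

lemma dForm_local (a b : ℝ → ℝ) (x₀ : X) {z₀ : E} (hz₀ : z₀ ∈ (chartAt E x₀).target) :
    ∃ τ : E → V8, ContDiffAt ℝ ∞ τ z₀ ∧ τ z₀ ∈ Pairs ∧
      localForm (dForm T s a b) x₀ =ᶠ[𝓝 z₀]
        fun z => (upForm a b (τ z)).compContinuousLinearMap (fderiv ℝ τ z) := by
  obtain ⟨τ, hτ1, hτ2, hτ3⟩ := local_frames hp hT x₀ hz₀
  refine ⟨τ, hτ1, hτ2, ?_⟩
  filter_upwards [hτ3] with z hz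
  obtain ⟨h1, c, hc1, hc2, hc⟩ := hz
  ext v
  change dForm T s a b ((chartAt E x₀).symm z) (fun i => coordChange x₀ z (v i)) =
    upForm a b (τ z) (fun i => fderiv ℝ τ z (v i))
  rw [dForm_apply, upForm_apply, hc, hc, h1]
  simp only [rot, conj_mul_unit hc1, conj_mul_unit hc2, cof_apply]

lemma dForm_smooth {a b : ℝ → ℝ} (ha : ContDiff ℝ ∞ a) (hb : ContDiff ℝ ∞ b) :
    IsSmoothForm (dForm T s a b) := by
  intro x₀ z₀ hz₀
  refine ContDiffAt.contDiffWithinAt ?_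
  obtain ⟨τ, hτ1, hτ2, hτ3⟩ := dForm_local hp hT a b x₀ hz₀
  refine ContDiffAt.congr_of_eventuallyEq ?_ hτ3
  refine contDiffAt_of_eval fun v => ?_
  have hder : ContDiffAt ℝ ∞ (fderiv ℝ τ) z₀ := hτ1.fderiv_right (by simp)
  have hw : ∀ i, ContDiffAt ℝ ∞ (fun z => fderiv ℝ τ z (v i)) z₀ := fun i =>
    hder.clm_apply contDiffAt_const
  change ContDiffAt ℝ ∞ (fun z => upForm a b (τ z) (fun i => fderiv ℝ τ z (v i))) z₀
  simp only [upForm_apply]
  have hS := cd_hgt hτ1 hτ2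
  exact ((ha.contDiffAt.comp z₀ hS).mul (cd_im ((cd_conj (cd_chi hτ1 (hw 0) hτ2)).mul
    (cd_chi hτ1 (hw 1) hτ2)))).add ((hb.contDiffAt.comp z₀ hS).mul
    (cd_im ((cd_conj (cd_psi hτ1 (hw 0) hτ2)).mul (cd_psi hτ1 (hw 1) hτ2))))

lemma dForm_closed {a b : ℝ → ℝ} (ha : ContDiff ℝ ∞ a) (hb : ContDiff ℝ ∞ b)
    (hab : ∀ r, HasDerivAt a (b r) r) : IsClosedForm (dForm T s a b) := by
  intro x₀ z₀ hz₀
  obtain ⟨τ, hτ1, hτ2, hτ3⟩ := dForm_local hp hT a b x₀ hz₀
  rw [hτ3.extDeriv_eq]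
  have h : extDeriv (fun z => (upForm a b (τ z)).compContinuousLinearMap (fderiv ℝ τ z)) z₀ =
      (extDeriv (upForm a b) (τ z₀)).compContinuousLinearMap (fderiv ℝ τ z₀) :=
    extDeriv_pullback (r := ∞) ((cd_upForm ha hb hτ2).differentiableAt (by simp)) hτ1
      (by rw [minSmoothness_of_isRCLikeNormedField]; norm_cast)
  rw [h, extDeriv_upForm ha hb hab hτ2]
  rfl

lemma vol_orientation (hbij : ∀ x, Function.Bijective (T x)) :
    IsOrientation (fun x => vol4.compContinuousLinearMap (T x)) := by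
  constructor
  · intro x₀ z₀ hz₀
    refine ContDiffAt.contDiffWithinAt ?_
    obtain ⟨τ, hτ1, hτ2, hτ3⟩ := local_frames hp hT x₀ hz₀
    refine contDiffAt_of_eval fun v => ?_
    have hder : ContDiffAt ℝ ∞ (fderiv ℝ τ) z₀ := hτ1.fderiv_right (by simp)
    have hw : ∀ i, ContDiffAt ℝ ∞ (fun z => fderiv ℝ τ z (v i)) z₀ := fun i =>
      hder.clm_apply contDiffAt_const
    have key : ContDiffAt ℝ ∞ (fun z => vol4 (fun i => cof (τ z) (fderiv ℝ τ z (v i)))) z₀ :=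
      cd_vol4 (f := fun i z => cof (τ z) (fderiv ℝ τ z (v i))) fun i => cd_cof hτ1 (hw i) hτ2
    refine key.congr_of_eventuallyEq ?_
    filter_upwards [hτ3] with z hz
    obtain ⟨h1, c, hc1, hc2, hc⟩ := hz
    change vol4 (fun i => T ((chartAt E x₀).symm z) (coordChange x₀ z (v i))) = _
    simp only [hc]
    exact vol4_rot hc1 hc2 _
  · intro x hx
    have h1 := vol4_std
    choose g hg using (hbij x).2
    have h2 : vol4.compContinuousLinearMap (T x) (fun i => g ((![((1 : ℂ), (0 : ℂ)),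
        (Complex.I, 0), (0, 1), (0, Complex.I)] : Fin 4 → ℂ × ℂ) i)) = 1 := by
      change vol4 (fun i => T x (g ((![((1 : ℂ), (0 : ℂ)),
        (Complex.I, 0), (0, 1), (0, Complex.I)] : Fin 4 → ℂ × ℂ) i))) = 1
      simp only [hg]
      exact h1
    have h3 := congrArg (fun f : E [⋀^Fin 4]→L[ℝ] ℝ => f (fun i => g ((![((1 : ℂ), (0 : ℂ)),
        (Complex.I, 0), (0, 1), (0, Complex.I)] : Fin 4 → ℂ × ℂ) i))) hx
    simp only [h2] at h3
    exact one_ne_zero h3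

lemma metric_isMetric (hbij : ∀ x, Function.Bijective (T x)) :
    IsMetric (fun x u v => met (T x u) (T x v)) := by
  constructor
  · intro x u
    constructor
    · intro v w
      rw [map_add, met_add]
    · intro r v
      rw [map_smul, met_smul, smul_eq_mul]
  · intro x u v
    exact met_comm _ _
  · intro x u hu
    refine met_pos fun h => hu ((hbij x).1 ?_)
    rw [h, map_zero]
  · intro x₀ u v z₀ hz₀
    refine ContDiffAt.contDiffWithinAt ?_
    obtain ⟨τ, hτ1, hτ2, hτ3⟩ := local_frames hp hT x₀ hz₀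
    have hder : ContDiffAt ℝ ∞ (fderiv ℝ τ) z₀ := hτ1.fderiv_right (by simp)
    have hw : ∀ w, ContDiffAt ℝ ∞ (fun z => fderiv ℝ τ z w) z₀ := fun w =>
      hder.clm_apply contDiffAt_const
    refine (cd_met (cd_cof hτ1 (hw u) hτ2) (cd_cof hτ1 (hw v) hτ2)).congr_of_eventuallyEq ?_
    filter_upwards [hτ3] with z hz
    obtain ⟨h1, c, hc1, hc2, hc⟩ := hz
    rw [hc, hc, met_rot hc1 hc2]

omit hp hT [NormedAddCommGroup E] [NormedSpace ℝ E] [TopologicalSpace X] [ChartedSpace E X]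
  [IsManifold 𝓘(ℝ, E) ∞ X] [FiniteDimensional ℝ E] in
lemma exists_height (hs : ∀ x, ∀ n ∈ Pairs, p n = x → s x = hgt n) :
    (∃ x, s x = 0) ∧ ∃ x, s x ≠ 0 := by
  have h1 : (((1 : ℂ), (0 : ℂ)), ((1 : ℂ), (1 : ℂ))) ∈ Pairs := by
    constructor <;> simp [Prod.ext_iff]
  have h2 : (((1 : ℂ), (0 : ℂ)), ((1 : ℂ), (0 : ℂ))) ∈ Pairs := by
    constructor <;> simp [Prod.ext_iff]
  refine ⟨⟨_, (hs _ _ h1 rfl).trans ?_⟩, ⟨p (((1 : ℂ), (0 : ℂ)), ((1 : ℂ), (0 : ℂ))), ?_⟩⟩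
  · simp [hgt, nA]
  · rw [hs _ _ h2 rfl]
    simp [hgt, nN]

/-- The main construction. -/
theorem exists_mixed_form (hE : Module.finrank ℝ E = 4)
    (hbij : ∀ x, Function.Bijective (T x)) : HasMixedHarmonicForm E X := by
  have hr0 : ∀ x, s x = 0 → rankAt (dForm T s Real.cosh Real.sinh) x = 2 := by
    intro x hx
    have h := rank_two (hbij x) (a := Real.cosh 0) (by simp)
    rw [rankAt]
    simp only [dForm_apply, hx]
    rw [Real.sinh_zero]
    exact h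
  have hr1 : ∀ x, s x ≠ 0 → rankAt (dForm T s Real.cosh Real.sinh) x = 4 := by
    intro x hx
    have h := rank_four (hbij x) hE (a := Real.cosh (s x)) (b := Real.sinh (s x))
      (Real.cosh_pos _).ne' (by simpa using hx)
    exact h
  obtain ⟨⟨x, hx⟩, ⟨x', hx'⟩⟩ := exists_height (p := p) (s := s) (fun x n hn hpn => (hT x n hn hpn).1)
  refine ⟨dForm T s Real.cosh Real.sinh, ⟨?_, ?_, ?_⟩, ?_, ⟨x, hr0 x hx⟩, ⟨x', hr1 x' hx'⟩⟩
  · exact dForm_smooth hp hT Real.contDiff_cosh Real.contDiff_sinh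
  · exact dForm_closed hp hT Real.contDiff_cosh Real.contDiff_sinh Real.hasDerivAt_cosh
  · refine ⟨fun x u v => met (T x u) (T x v), fun x => vol4.compContinuousLinearMap (T x),
      dForm T s Real.sinh Real.cosh, metric_isMetric hp hT hbij, vol_orientation hp hT hbij, ?_,
      dForm_smooth hp hT Real.contDiff_sinh Real.contDiff_cosh,
      dForm_closed hp hT Real.contDiff_sinh Real.contDiff_cosh Real.hasDerivAt_sinh⟩
    intro y e he hpos
    obtain ⟨h1, h2⟩ := hodge (fun i => T y (e i)) he hpos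
    have h1' : (conj (T y (e 0)).1 * (T y (e 1)).1).im = (conj (T y (e 2)).2 * (T y (e 3)).2).im :=
      h1
    have h2' : (conj (T y (e 0)).2 * (T y (e 1)).2).im = (conj (T y (e 2)).1 * (T y (e 3)).1).im :=
      h2
    rw [dForm_apply, dForm_apply]
    simp only [Matrix.cons_val_zero, Matrix.cons_val_one]
    rw [h1', h2']
    ring
  · intro y
    by_cases hy : s y = 0
    · exact (hr0 y hy).ge
    · rw [hr1 y hy]
      norm_num

omit hp hT [IsManifold 𝓘(ℝ, E) ∞ X] in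
/-- Every manifold diffeomorphic to `CP² # -CP²` carries an intrinsically harmonic 2-form of mixed
rank. -/
theorem hasMixedHarmonicForm (hE : Module.finrank ℝ E = 4) (h : IsCP2SumCP2bar E X) :
    HasMixedHarmonicForm E X := by
  obtain ⟨hM, p, hp⟩ := h
  choose T s hT using exists_frame hp hE
  exact exists_mixed_form hp (T := T) (s := s) (fun x => (hT x).2) hE (fun x => (hT x).1)

end Pool.Agent.LibMixed
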