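import Mathlib
import Pool.Agent.Lib_MP_dc226a_gt.Frames

set_option autoImplicit false

open Set Filter Topology ComplexConjugate ContDiff Manifold

namespace Pool.Agent.LibMixed

/-! ### orbits -/

lemma act_act (l m l' m' : ℂ) (n : V8) :
    act l' m' (act l m n) = act (l' * l) (m' * m) n := by
  simp only [act, mul_inv]
  refine Prod.ext (Prod.ext ?_ ?_) (Prod.ext ?_ ?_) <;> simp only <;> ring

lemma act_one (n : V8) : act 1 1 n = n := by
  simp [act]

lemma act_inv {l m : ℂ} (hl : l ≠ 0) (hm : m ≠ 0) (n : V8) : act l⁻¹ m⁻¹ (act l m n) = n := by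
  rw [act_act, inv_mul_cancel₀ hl, inv_mul_cancel₀ hm, act_one]

instance orbitSetoid : Setoid Pairs where
  r n n' := SameOrbit n.1 n'.1
  iseqv :=
    { refl := fun n => ⟨1, 1, one_ne_zero, one_ne_zero, (act_one n.1).symm⟩
      symm := by
        rintro n n' ⟨l, m, hl, hm, h⟩
        refine ⟨l⁻¹, m⁻¹, inv_ne_zero hl, inv_ne_zero hm, ?_⟩
        have h' : n'.1 = act l m n.1 := h
        rw [h']
        exact (act_inv hl hm n.1).symm
      trans := by
        rintro n n' n'' ⟨l, m, hl, hm, h⟩ ⟨l', m', hl', hm', h'⟩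
        refine ⟨l' * l, m' * m, mul_ne_zero hl' hl, mul_ne_zero hm' hm, ?_⟩
        have h1 : n'.1 = act l m n.1 := h
        have h2 : n''.1 = act l' m' n'.1 := h'
        rw [h2, h1]
        exact act_act l m l' m' n.1 }

/-- The orbit space. -/
def M4 : Type := Quotient orbitSetoid

lemma base_mem : (((1 : ℂ), (0 : ℂ)), ((1 : ℂ), (0 : ℂ))) ∈ Pairs := by
  constructor <;> simp [Prod.ext_iff]

open Classical in
/-- The projection to the orbit space. -/
noncomputable def pr (n : V8) : M4 :=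
  if h : n ∈ Pairs then (Quotient.mk orbitSetoid ⟨n, h⟩ : Quotient orbitSetoid)
  else (Quotient.mk orbitSetoid ⟨_, base_mem⟩ : Quotient orbitSetoid)

noncomputable def rep (q : M4) : V8 := (Quotient.out (s := orbitSetoid) q).1

lemma rep_mem (q : M4) : rep q ∈ Pairs := (Quotient.out (s := orbitSetoid) q).2

lemma pr_rep (q : M4) : pr (rep q) = q := by
  rw [pr, dif_pos (rep_mem q)]
  exact Quotient.out_eq (s := orbitSetoid) q

lemma pr_eq_iff {n n' : V8} (hn : n ∈ Pairs) (hn' : n' ∈ Pairs) :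
    pr n = pr n' ↔ SameOrbit n n' := by
  rw [pr, pr, dif_pos hn, dif_pos hn']
  exact Quotient.eq (r := orbitSetoid)

lemma rep_pr {n : V8} (hn : n ∈ Pairs) :
    ∃ l m : ℂ, l ≠ 0 ∧ m ≠ 0 ∧ rep (pr n) = act l m n := by
  have h := (pr_eq_iff hn (rep_mem (pr n))).1 (pr_rep (pr n)).symm
  exact h

/-! ### charts -/

/-- the selected coordinate of `x` -/
def xi (i : Bool) (n : V8) : ℂ := bif i then n.1.2 else n.1.1

/-- the other coordinate of `x` -/
def xo (i : Bool) (n : V8) : ℂ := bif i then n.1.1 else n.1.2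

noncomputable def co (k : Bool × Bool) (n : V8) : ℂ × ℂ :=
  (xo k.1 n / xi k.1 n,
    bif k.2 then n.2.1 / (xi k.1 n * n.2.2) else xi k.1 n * n.2.2 / n.2.1)

def dom (k : Bool × Bool) : Set V8 :=
  {n | xi k.1 n ≠ 0 ∧ (bif k.2 then n.2.2 else n.2.1) ≠ 0}

def sec (k : Bool × Bool) (w : ℂ × ℂ) : V8 :=
  (bif k.1 then (w.1, 1) else (1, w.1), bif k.2 then (w.2, 1) else (1, w.2))

lemma dom_subset (k : Bool × Bool) : dom k ⊆ Pairs := by
  rintro n ⟨h1, h2⟩
  rcases k with ⟨i, j⟩
  refine ⟨fun h => h1 ?_, fun h => h2 ?_⟩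
  · cases i <;> simp [xi, h]
  · cases j <;> simp [h]

lemma sec_mem (k : Bool × Bool) (w : ℂ × ℂ) : sec k w ∈ dom k := by
  rcases k with ⟨i, j⟩
  cases i <;> cases j <;> simp [sec, dom, xi]

lemma co_sec (k : Bool × Bool) (w : ℂ × ℂ) : co k (sec k w) = w := by
  rcases k with ⟨i, j⟩
  cases i <;> cases j <;> simp [sec, co, xi, xo]

lemma act_dom {k : Bool × Bool} {l m : ℂ} (hl : l ≠ 0) (hm : m ≠ 0) {n : V8} :
    act l m n ∈ dom k ↔ n ∈ dom k := by
  rcases k with ⟨i, j⟩
  cases i <;> cases j <;> simp [act, dom, xi, hl, hm]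

lemma co_act {k : Bool × Bool} {l m : ℂ} (hl : l ≠ 0) (hm : m ≠ 0) {n : V8} (hn : n ∈ dom k) :
    co k (act l m n) = co k n := by
  rcases k with ⟨i, j⟩
  obtain ⟨h1, h2⟩ := hn
  refine Prod.ext ?_ ?_
  · cases i <;> simp only [co, act, xi, xo, cond_true, cond_false] at * <;>
      rw [mul_div_mul_left _ _ hl]
  · cases i <;> cases j <;> simp only [co, act, xi, cond_true, cond_false] at * <;> field_simp

lemma exists_act_sec {k : Bool × Bool} {n : V8} (hn : n ∈ dom k) :
    ∃ l m : ℂ, l ≠ 0 ∧ m ≠ 0 ∧ n = act l m (sec k (co k n)) := by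
  rcases k with ⟨i, j⟩
  obtain ⟨h1, h2⟩ := hn
  refine ⟨xi i n, bif j then xi i n * n.2.2 else n.2.1, h1, ?_, ?_⟩
  · cases j <;> simp_all
  · refine Prod.ext (Prod.ext ?_ ?_) (Prod.ext ?_ ?_)
    · cases i <;> simp only [co, act, sec, xi, xo, cond_true, cond_false] at * <;> field_simp
    · cases i <;> simp only [co, act, sec, xi, xo, cond_true, cond_false] at * <;> field_simp
    · cases i <;> cases j <;> simp only [co, act, sec, xi, xo, cond_true, cond_false] at * <;>
        field_simp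
    · cases i <;> cases j <;> simp only [co, act, sec, xi, xo, cond_true, cond_false] at * <;>
        field_simp

lemma rep_pr_dom {k : Bool × Bool} {n : V8} (hn : n ∈ Pairs) :
    rep (pr n) ∈ dom k ↔ n ∈ dom k := by
  obtain ⟨l, m, hl, hm, h⟩ := rep_pr hn
  rw [h]
  exact act_dom hl hm

lemma co_rep_pr {k : Bool × Bool} {n : V8} (hn : n ∈ dom k) :
    co k (rep (pr n)) = co k n := by
  obtain ⟨l, m, hl, hm, h⟩ := rep_pr (dom_subset k hn)
  rw [h]
  exact co_act hl hm hn

lemma pr_sec_co {k : Bool × Bool} {n : V8} (hn : n ∈ dom k) : pr (sec k (co k n)) = pr n := by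
  obtain ⟨l, m, hl, hm, h⟩ := exists_act_sec hn
  exact (pr_eq_iff (dom_subset k (sec_mem k _)) (dom_subset k hn)).2 ⟨l, m, hl, hm, h⟩

/-- The model space. -/
abbrev R4 := EuclideanSpace ℝ (Fin 4)

noncomputable def eqv : (ℂ × ℂ) ≃L[ℝ] R4 :=
  ContinuousLinearEquiv.ofFinrankEq (by
    rw [finrank_W4, finrank_euclideanSpace_fin])

/-- the charts -/
noncomputable def pch (k : Bool × Bool) : PartialEquiv M4 R4 where
  toFun q := eqv (co k (rep q))
  invFun z := pr (sec k (eqv.symm z))
  source := {q | rep q ∈ dom k}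
  target := univ
  map_source' _ _ := mem_univ _
  map_target' z _ := (rep_pr_dom (dom_subset k (sec_mem k _))).2 (sec_mem k _)
  left_inv' q hq := by
    rw [ContinuousLinearEquiv.symm_apply_apply, pr_sec_co hq, pr_rep]
  right_inv' z _ := by
    rw [co_rep_pr (sec_mem k _), co_sec, ContinuousLinearEquiv.apply_symm_apply]

lemma contDiff_sec (k : Bool × Bool) : ContDiff ℝ ∞ (sec k) := by
  rcases k with ⟨i, j⟩
  cases i <;> cases j
  · exact (contDiff_const.prodMk contDiff_fst).prodMk (contDiff_const.prodMk contDiff_snd)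
  · exact (contDiff_const.prodMk contDiff_fst).prodMk (contDiff_snd.prodMk contDiff_const)
  · exact (contDiff_fst.prodMk contDiff_const).prodMk (contDiff_const.prodMk contDiff_snd)
  · exact (contDiff_fst.prodMk contDiff_const).prodMk (contDiff_snd.prodMk contDiff_const)

lemma isOpen_dom (k : Bool × Bool) : IsOpen (dom k) := by
  rcases k with ⟨i, j⟩
  have h1 : IsOpen {n : V8 | xi i n ≠ 0} := by
    cases i <;> simp only [xi, cond_true, cond_false] <;>
      exact isOpen_ne_fun (by fun_prop) continuous_const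
  have h2 : IsOpen {n : V8 | (bif j then n.2.2 else n.2.1) ≠ 0} := by
    cases j <;> simp only [cond_true, cond_false] <;>
      exact isOpen_ne_fun (by fun_prop) continuous_const
  exact h1.inter h2

lemma contDiffAt_co {k : Bool × Bool} {n : V8} (hn : n ∈ dom k) : ContDiffAt ℝ ∞ (co k) n := by
  rcases k with ⟨i, j⟩
  obtain ⟨h1, h2⟩ := hn
  have hxi : ContDiffAt ℝ ∞ (xi i) n := by
    cases i
    · exact (contDiff_fst.comp contDiff_fst).contDiffAt
    · exact (contDiff_snd.comp contDiff_fst).contDiffAt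
  have hxo : ContDiffAt ℝ ∞ (xo i) n := by
    cases i
    · exact (contDiff_snd.comp contDiff_fst).contDiffAt
    · exact (contDiff_fst.comp contDiff_fst).contDiffAt
  have hid : ContDiffAt ℝ ∞ (fun m : V8 => m) n := contDiffAt_id
  refine ContDiffAt.prodMk ?_ ?_
  · simp only [div_eq_mul_inv]
    exact hxo.mul (hxi.inv h1)
  · cases j
    · simp only [cond_false, div_eq_mul_inv] at h2 ⊢
      exact (hxi.mul hid.snd.snd).mul (ContDiffAt.inv hid.snd.fst h2)
    · simp only [cond_true, div_eq_mul_inv] at h2 ⊢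
      exact hid.snd.fst.mul (ContDiffAt.inv (hxi.mul hid.snd.snd) (mul_ne_zero h1 h2))

lemma trans_source (k k' : Bool × Bool) :
    ((pch k).symm.trans (pch k')).source = {z | sec k (eqv.symm z) ∈ dom k'} := by
  ext z
  rw [PartialEquiv.trans_source]
  simp only [pch, PartialEquiv.symm_source, PartialEquiv.coe_symm_mk, univ_inter, mem_preimage,
    mem_ofPred_eq, rep_pr_dom (dom_subset k (sec_mem k _))]

lemma trans_eq (k k' : Bool × Bool) {z : R4} (hz : sec k (eqv.symm z) ∈ dom k') :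
    ((pch k).symm.trans (pch k')) z = eqv (co k' (sec k (eqv.symm z))) := by
  change eqv (co k' (rep (pr (sec k (eqv.symm z))))) = _
  rw [co_rep_pr hz]

lemma contDiffOn_trans (k k' : Bool × Bool) :
    ContDiffOn ℝ ∞ ((pch k).symm.trans (pch k')) ((pch k).symm.trans (pch k')).source := by
  rw [trans_source]
  have h : ContDiffOn ℝ ∞ (fun z : R4 => eqv (co k' (sec k (eqv.symm z))))
      {z | sec k (eqv.symm z) ∈ dom k'} := by
    intro z hz
    refine ContDiffAt.contDiffWithinAt ?_
    have h1 : ContDiffAt ℝ ∞ (fun z : R4 => sec k (eqv.symm z)) z :=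
      ((contDiff_sec k).comp eqv.symm.contDiff).contDiffAt
    have h2 : ContDiffAt ℝ ∞ (fun z : R4 => co k' (sec k (eqv.symm z))) z :=
      ContDiffAt.comp (g := co k') (f := fun z : R4 => sec k (eqv.symm z)) z (contDiffAt_co hz) h1
    exact eqv.contDiff.contDiffAt.comp z h2
  exact h.congr fun z hz => trans_eq k k' hz

lemma isOpen_trans (k k' : Bool × Bool) : IsOpen ((pch k).symm.trans (pch k')).source := by
  rw [trans_source]
  exact (isOpen_dom k').preimage ((contDiff_sec k).continuous.comp eqv.symm.continuous)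

open Classical in
/-- an index of a chart around a point -/
noncomputable def idx (n : V8) : Bool × Bool := (decide (n.1.1 = 0), decide (n.2.1 = 0))

lemma mem_dom_idx {n : V8} (hn : n ∈ Pairs) : n ∈ dom (idx n) := by
  obtain ⟨h1, h2⟩ := hn
  constructor
  · by_cases h : n.1.1 = 0
    · have hd : decide (n.1.1 = 0) = true := by simpa using h
      change xi (decide (n.1.1 = 0)) n ≠ 0
      rw [hd]
      exact fun h' => h1 (Prod.ext h h')
    · have hd : decide (n.1.1 = 0) = false := by simpa using h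
      change xi (decide (n.1.1 = 0)) n ≠ 0
      rw [hd]
      exact h
  · by_cases h : n.2.1 = 0
    · have hd : decide (n.2.1 = 0) = true := by simpa using h
      change (bif decide (n.2.1 = 0) then n.2.2 else n.2.1) ≠ 0
      rw [hd]
      exact fun h' => h2 (Prod.ext h h')
    · have hd : decide (n.2.1 = 0) = false := by simpa using h
      change (bif decide (n.2.1 = 0) then n.2.2 else n.2.1) ≠ 0
      rw [hd]
      exact h

/-- the charted space structure -/
noncomputable def core : ChartedSpaceCore R4 M4 where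
  atlas := range pch
  chartAt q := pch (idx (rep q))
  mem_chart_source q := mem_dom_idx (rep_mem q)
  chart_mem_atlas q := ⟨_, rfl⟩
  open_source := by
    rintro _ _ ⟨k, rfl⟩ ⟨k', rfl⟩
    exact isOpen_trans k k'
  continuousOn_toFun := by
    rintro _ _ ⟨k, rfl⟩ ⟨k', rfl⟩
    exact (contDiffOn_trans k k').continuousOn

noncomputable instance : TopologicalSpace M4 := core.toTopologicalSpace

noncomputable instance : ChartedSpace R4 M4 := core.toChartedSpace

instance : IsManifold 𝓘(ℝ, R4) ∞ M4 := by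
  refine isManifold_of_contDiffOn 𝓘(ℝ, R4) ∞ M4 ?_
  intro e e' he he'
  have hat : atlas R4 M4 = ⋃ (e : PartialEquiv M4 R4) (he : e ∈ core.atlas),
      {core.openPartialHomeomorph e he} := rfl
  rw [hat, mem_iUnion₂] at he he'
  obtain ⟨_, ⟨k, rfl⟩, he⟩ := he
  obtain ⟨_, ⟨k', rfl⟩, he'⟩ := he'
  rw [mem_singleton_iff] at he he'
  subst he he'
  have h : ContDiffOn ℝ ∞ (pch k' ∘ (pch k).symm)
      ((pch k).target ∩ (pch k).symm ⁻¹' (pch k').source) := contDiffOn_trans k k'
  simp only [modelWithCornersSelf_coe, modelWithCornersSelf_coe_symm, Function.id_comp,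
    Function.comp_id, preimage_id_eq, id_eq, range_id, inter_univ]
  exact h

/-! ### the projection -/

/-- the charts as partial homeomorphisms -/
noncomputable def ch (k : Bool × Bool) : OpenPartialHomeomorph M4 R4 :=
  core.openPartialHomeomorph (pch k) ⟨k, rfl⟩

lemma ch_mem_atlas (k : Bool × Bool) : ch k ∈ atlas R4 M4 := by
  have hat : atlas R4 M4 = ⋃ (e : PartialEquiv M4 R4) (he : e ∈ core.atlas),
      {core.openPartialHomeomorph e he} := rfl
  rw [hat, mem_iUnion₂]
  exact ⟨pch k, ⟨k, rfl⟩, rfl⟩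

lemma ch_mem_maximalAtlas (k : Bool × Bool) : ch k ∈ IsManifold.maximalAtlas 𝓘(ℝ, R4) ∞ M4 :=
  IsManifold.subset_maximalAtlas (ch_mem_atlas k)

lemma chartAt_eq (q : M4) : chartAt R4 q = ch (idx (rep q)) := rfl

lemma ch_apply (k : Bool × Bool) (q : M4) : ch k q = eqv (co k (rep q)) := rfl

lemma ch_symm_apply (k : Bool × Bool) (z : R4) : (ch k).symm z = pr (sec k (eqv.symm z)) := rfl

lemma ch_target (k : Bool × Bool) : (ch k).target = univ := rfl

lemma pr_eq {k : Bool × Bool} {n : V8} (hn : n ∈ dom k) :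
    pr n = (ch k).symm (eqv (co k n)) := by
  rw [ch_symm_apply, ContinuousLinearEquiv.symm_apply_apply, pr_sec_co hn]

lemma contMDiffAt_pr {n : V8} (hn : n ∈ Pairs) :
    ContMDiffAt 𝓘(ℝ, V8) 𝓘(ℝ, R4) ∞ pr n := by
  set k := idx n
  have hk : n ∈ dom k := mem_dom_idx hn
  have h1 : ContMDiffAt 𝓘(ℝ, R4) 𝓘(ℝ, R4) ∞ (ch k).symm (eqv (co k n)) :=
    contMDiffAt_symm_of_mem_maximalAtlas (ch_mem_maximalAtlas k) (by rw [ch_target]; trivial)
  have h2 : ContMDiffAt 𝓘(ℝ, V8) 𝓘(ℝ, R4) ∞ (fun m => eqv (co k m)) n :=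
    (eqv.contDiff.contDiffAt.comp n (contDiffAt_co hk)).contMDiffAt
  have h3 : ContMDiffAt 𝓘(ℝ, V8) 𝓘(ℝ, R4) ∞ (fun m => (ch k).symm (eqv (co k m))) n :=
    ContMDiffAt.comp (I' := 𝓘(ℝ, R4)) n h1 h2
  refine h3.congr_of_eventuallyEq ?_
  filter_upwards [(isOpen_dom k).mem_nhds hk] with m hm
  exact pr_eq hm

theorem isOrbitProjection_pr : IsOrbitProjection (E := R4) pr := by
  constructor
  · exact fun n hn => (contMDiffAt_pr hn).contMDiffWithinAt
  · intro n hn w
    set k := idx (rep (pr n)) with hkd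
    have hk : n ∈ dom k := by
      have h1 := mem_dom_idx (rep_mem (pr n))
      exact (rep_pr_dom hn).1 h1
    obtain ⟨l, m, hl, hm, hlm⟩ := exists_act_sec hk
    -- the section through `n`
    set σ : R4 → V8 := fun z => actL l m (sec k (eqv.symm z)) with hσ
    set z₀ : R4 := eqv (co k n) with hz₀
    have hσ0 : σ z₀ = n := by
      rw [hσ]
      simp only [actL_apply]
      rw [hz₀, ContinuousLinearEquiv.symm_apply_apply, ← hlm]
    have hσd : DifferentiableAt ℝ σ z₀ :=
      (((actL l m).contDiff.comp ((contDiff_sec k).comp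
        eqv.symm.contDiff)).contDiffAt).differentiableAt (by simp)
    have hfd : DifferentiableAt ℝ (fun m => eqv (co k m)) n :=
      (eqv.contDiff.contDiffAt.comp n (contDiffAt_co hk)).differentiableAt (by simp)
    have hcomp : ∀ z, (fun m => eqv (co k m)) (σ z) = z := by
      intro z
      simp only [hσ, actL_apply]
      rw [co_act hl hm (sec_mem k _), co_sec, ContinuousLinearEquiv.apply_symm_apply]
    have hloc : chartAt R4 (pr n) ∘ pr =ᶠ[𝓝 n] fun m => eqv (co k m) := by
      filter_upwards [(isOpen_dom k).mem_nhds hk] with n' hn'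
      rw [Function.comp_apply, chartAt_eq, ← hkd, ch_apply, co_rep_pr hn']
    have hd : DifferentiableAt ℝ (chartAt R4 (pr n) ∘ pr) n := hloc.differentiableAt_iff.2 hfd
    refine ⟨fderiv ℝ σ z₀ w, ?_⟩
    rw [diffMap, hd.lineDeriv_eq_fderiv, hloc.fderiv_eq]
    have h1 : HasFDerivAt (fun m => eqv (co k m)) (fderiv ℝ (fun m => eqv (co k m)) n) (σ z₀) := by
      rw [hσ0]
      exact hfd.hasFDerivAt
    have h2 := h1.comp z₀ hσd.hasFDerivAt
    have h3 : (fun m => eqv (co k m)) ∘ σ = id := funext hcomp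
    rw [h3] at h2
    have h4 := h2.unique (hasFDerivAt_id z₀)
    exact congrArg (fun L : R4 →L[ℝ] R4 => L w) h4
  · exact fun q => ⟨rep q, rep_mem q, pr_rep q⟩
  · exact fun n hn n' hn' => pr_eq_iff hn hn'

/-! ### compactness -/

lemma exists_norm_one {n : V8} (hn : n ∈ Pairs) :
    ∃ l m : ℂ, l ≠ 0 ∧ m ≠ 0 ∧
      Complex.normSq (act l m n).1.1 + Complex.normSq (act l m n).1.2 = 1 ∧
      Complex.normSq (act l m n).2.1 + Complex.normSq (act l m n).2.2 = 1 := by
  have hA := nA_pos hn.1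
  set l : ℂ := (((Real.sqrt (nA n))⁻¹ : ℝ) : ℂ) with hl
  have hl0 : l ≠ 0 := by
    rw [hl]
    exact_mod_cast (inv_pos.2 (Real.sqrt_pos.2 hA)).ne'
  have hls : Complex.normSq l = (nA n)⁻¹ := by
    rw [hl, Complex.normSq_ofReal, ← mul_inv, Real.mul_self_sqrt hA.le]
  have hB : 0 < Complex.normSq n.2.1 + Complex.normSq (l⁻¹ * n.2.2) := by
    refine normSq_add_pos (a := n.2.1) (b := l⁻¹ * n.2.2) fun h => hn.2 ?_
    have h1 := congrArg Prod.fst h
    have h2 := congrArg Prod.snd h
    simp only [Prod.fst_zero, Prod.snd_zero, mul_eq_zero, inv_eq_zero, hl0, false_or] at h1 h2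
    exact Prod.ext h1 h2
  set m : ℂ := (((Real.sqrt (Complex.normSq n.2.1 + Complex.normSq (l⁻¹ * n.2.2)))⁻¹ : ℝ) : ℂ)
    with hm
  have hm0 : m ≠ 0 := by
    rw [hm]
    exact_mod_cast (inv_pos.2 (Real.sqrt_pos.2 hB)).ne'
  have hms : Complex.normSq m = (Complex.normSq n.2.1 + Complex.normSq (l⁻¹ * n.2.2))⁻¹ := by
    rw [hm, Complex.normSq_ofReal, ← mul_inv, Real.mul_self_sqrt hB.le]
  refine ⟨l, m, hl0, hm0, ?_, ?_⟩
  · simp only [act, Complex.normSq_mul]
    rw [← mul_add, hls]
    exact inv_mul_cancel₀ hA.ne'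
  · have : Complex.normSq (act l m n).2.1 + Complex.normSq (act l m n).2.2
        = Complex.normSq m * (Complex.normSq n.2.1 + Complex.normSq (l⁻¹ * n.2.2)) := by
      simp only [act, Complex.normSq_mul]
      ring
    rw [this, hms]
    exact inv_mul_cancel₀ hB.ne'

instance : CompactSpace M4 := by
  constructor
  set K : Set V8 := {n | Complex.normSq n.1.1 + Complex.normSq n.1.2 = 1 ∧
    Complex.normSq n.2.1 + Complex.normSq n.2.2 = 1} with hK
  have hKP : K ⊆ Pairs := by
    rintro n ⟨h1, h2⟩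
    refine ⟨fun h => ?_, fun h => ?_⟩
    · rw [h] at h1
      simp at h1
    · rw [h] at h2
      simp at h2
  have hKc : IsCompact K := by
    refine Metric.isCompact_of_isClosed_isBounded ?_ ?_
    · refine IsClosed.inter ?_ ?_
      · exact isClosed_eq ((Complex.continuous_normSq.comp (by fun_prop)).add
          (Complex.continuous_normSq.comp (by fun_prop))) continuous_const
      · exact isClosed_eq ((Complex.continuous_normSq.comp (by fun_prop)).add
          (Complex.continuous_normSq.comp (by fun_prop))) continuous_const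
    · refine (Metric.isBounded_closedBall (x := (0 : V8)) (r := 1)).subset ?_
      rintro n ⟨h1, h2⟩
      rw [mem_closedBall_zero_iff]
      have key : ∀ a b : ℂ, Complex.normSq a + Complex.normSq b = 1 → ‖a‖ ≤ 1 ∧ ‖b‖ ≤ 1 := by
        intro a b hab
        rw [Complex.normSq_eq_norm_sq, Complex.normSq_eq_norm_sq] at hab
        constructor <;> nlinarith [norm_nonneg a, norm_nonneg b, sq_nonneg ‖a‖, sq_nonneg ‖b‖]
      obtain ⟨a1, a2⟩ := key _ _ h1
      obtain ⟨a3, a4⟩ := key _ _ h2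
      exact max_le (max_le a1 a2) (max_le a3 a4)
  have himg : pr '' K = univ := by
    refine eq_univ_of_forall fun q => ?_
    obtain ⟨l, m, hl, hm, h1, h2⟩ := exists_norm_one (rep_mem q)
    refine ⟨act l m (rep q), ⟨h1, h2⟩, ?_⟩
    have h3 : pr (rep q) = pr (act l m (rep q)) :=
      (pr_eq_iff (rep_mem q) (act_mem hl hm (rep_mem q))).2 ⟨l, m, hl, hm, rfl⟩
    rw [← h3, pr_rep]
  rw [← himg]
  exact hKc.image_of_continuousOn fun n hn =>
    (contMDiffAt_pr (hKP hn)).continuousAt.continuousWithinAt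

/-! ### the Hausdorff property -/

/-- the orthogonal projection onto the line of `v` -/
noncomputable def proj (v : Fin 3 → ℂ) (i j : Fin 3) : ℂ :=
  v i * conj (v j) / ((∑ k, Complex.normSq (v k) : ℝ) : ℂ)

lemma sum_normSq_pos {v : Fin 3 → ℂ} (hv : v ≠ 0) : 0 < ∑ k, Complex.normSq (v k) := by
  obtain ⟨j, hj⟩ := Function.ne_iff.1 hv
  refine Finset.sum_pos' (fun k _ => Complex.normSq_nonneg _) ⟨j, Finset.mem_univ _, ?_⟩
  exact Complex.normSq_pos.2 hj

lemma proj_smul {c : ℂ} (hc : c ≠ 0) (v : Fin 3 → ℂ) : proj (fun i => c * v i) = proj v := by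
  have h : ((Complex.normSq c : ℝ) : ℂ) ≠ 0 := by simpa using hc
  funext i j
  have h1 : ((∑ k, Complex.normSq (c * v k) : ℝ) : ℂ)
      = (Complex.normSq c : ℂ) * ((∑ k, Complex.normSq (v k) : ℝ) : ℂ) := by
    rw [← Complex.ofReal_mul, Finset.mul_sum]
    simp only [Complex.normSq_mul]
  rw [proj, proj, h1]
  have h2 : c * v i * conj (c * v j) = (Complex.normSq c : ℂ) * (v i * conj (v j)) := by
    rw [map_mul, Complex.normSq_eq_conj_mul_self]
    ring
  rw [h2, mul_div_mul_left _ _ h]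

lemma proj_inj {v w : Fin 3 → ℂ} (hv : v ≠ 0) (hw : w ≠ 0) (h : proj v = proj w) :
    ∃ c : ℂ, c ≠ 0 ∧ ∀ i, w i = c * v i := by
  obtain ⟨j, hj⟩ := Function.ne_iff.1 hv
  have hj' : v j ≠ 0 := hj
  have hV : ((∑ k, Complex.normSq (v k) : ℝ) : ℂ) ≠ 0 := by
    exact_mod_cast (sum_normSq_pos hv).ne'
  have hW : ((∑ k, Complex.normSq (w k) : ℝ) : ℂ) ≠ 0 := by
    exact_mod_cast (sum_normSq_pos hw).ne'
  have hcj : conj (v j) ≠ 0 := by simpa using hj'
  have hwj : conj (w j) ≠ 0 := by
    intro h0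
    have h1 := congrFun (congrFun h j) j
    rw [proj, proj, h0, mul_zero, zero_div, div_eq_zero_iff] at h1
    rcases h1 with h1 | h1
    · rcases mul_eq_zero.1 h1 with h2 | h2
      · exact hj' h2
      · exact hcj h2
    · exact hV h1
  refine ⟨((∑ k, Complex.normSq (w k) : ℝ) : ℂ) * conj (v j) /
    (((∑ k, Complex.normSq (v k) : ℝ) : ℂ) * conj (w j)), ?_, fun i => ?_⟩
  · exact div_ne_zero (mul_ne_zero hW hcj) (mul_ne_zero hV hwj)
  · have h1 := congrFun (congrFun h i) j
    rw [proj, proj, div_eq_div_iff hV hW] at h1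
    field_simp
    linear_combination -h1

noncomputable def sepX (n : V8) : Fin 3 → ℂ := ![n.1.1, n.1.2, 0]
noncomputable def sepZ (n : V8) : Fin 3 → ℂ := ![n.2.1, n.1.1 * n.2.2, n.1.2 * n.2.2]

lemma sepX_ne {n : V8} (hn : n ∈ Pairs) : sepX n ≠ 0 := by
  intro h
  refine hn.1 (Prod.ext ?_ ?_)
  · exact congrFun h 0
  · exact congrFun h 1

lemma sepZ_ne {n : V8} (hn : n ∈ Pairs) : sepZ n ≠ 0 := by
  intro h
  have h0 : n.2.1 = 0 := congrFun h 0
  have h1 : n.1.1 * n.2.2 = 0 := congrFun h 1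
  have h2 : n.1.2 * n.2.2 = 0 := congrFun h 2
  refine hn.2 (Prod.ext h0 ?_)
  by_contra h3
  have h3' : n.2.2 ≠ 0 := h3
  refine hn.1 (Prod.ext ?_ ?_)
  · exact (mul_eq_zero.1 h1).resolve_right h3'
  · exact (mul_eq_zero.1 h2).resolve_right h3'

lemma sepX_act (l m : ℂ) (n : V8) : sepX (act l m n) = fun i => l * sepX n i := by
  funext i
  fin_cases i <;> simp [sepX, act]

lemma sepZ_act {l : ℂ} (hl : l ≠ 0) (m : ℂ) (n : V8) :
    sepZ (act l m n) = fun i => m * sepZ n i := by
  funext i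
  fin_cases i <;> simp [sepZ, act] <;> field_simp

/-- separating functions -/
noncomputable def sepf (q : M4) : (Fin 3 → Fin 3 → ℂ) × (Fin 3 → Fin 3 → ℂ) :=
  (proj (sepX (rep q)), proj (sepZ (rep q)))

lemma sepf_pr {n : V8} (hn : n ∈ Pairs) : sepf (pr n) = (proj (sepX n), proj (sepZ n)) := by
  obtain ⟨l, m, hl, hm, h⟩ := rep_pr hn
  rw [sepf, h, sepX_act, sepZ_act hl, proj_smul hl, proj_smul hm]

lemma sepf_injective : Function.Injective sepf := by
  intro q q' h
  obtain ⟨h1, h2⟩ := Prod.ext_iff.1 h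
  obtain ⟨c, hc, hc'⟩ := proj_inj (sepX_ne (rep_mem q)) (sepX_ne (rep_mem q')) h1
  obtain ⟨d, hd, hd'⟩ := proj_inj (sepZ_ne (rep_mem q)) (sepZ_ne (rep_mem q')) h2
  rw [← pr_rep q, ← pr_rep q']
  refine (pr_eq_iff (rep_mem q) (rep_mem q')).2 ⟨c, d, hc, hd, ?_⟩
  have a0 : (rep q').1.1 = c * (rep q).1.1 := hc' 0
  have a1 : (rep q').1.2 = c * (rep q).1.2 := hc' 1
  have b0 : (rep q').2.1 = d * (rep q).2.1 := hd' 0
  have b1 : (rep q').1.1 * (rep q').2.2 = d * ((rep q).1.1 * (rep q).2.2) := hd' 1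
  have b2 : (rep q').1.2 * (rep q').2.2 = d * ((rep q).1.2 * (rep q).2.2) := hd' 2
  refine Prod.ext (Prod.ext a0 a1) (Prod.ext b0 ?_)
  change (rep q').2.2 = d * c⁻¹ * (rep q).2.2
  by_cases h0 : (rep q).1.1 = 0
  · have h3 : (rep q).1.2 ≠ 0 := fun h4 => (rep_mem q).1 (Prod.ext h0 h4)
    rw [a1] at b2
    field_simp
    apply mul_left_cancel₀ h3
    linear_combination b2
  · rw [a0] at b1
    field_simp
    apply mul_left_cancel₀ h0
    linear_combination b1

lemma continuousAt_proj {v : V8 → Fin 3 → ℂ} {n : V8} (hv : ContinuousAt v n) (h : v n ≠ 0) :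
    ContinuousAt (fun m => proj (v m)) n := by
  have hvi : ∀ i, ContinuousAt (fun m => v m i) n := fun i =>
    (continuous_apply i).continuousAt.comp hv
  refine continuousAt_pi.2 fun i => continuousAt_pi.2 fun j => ?_
  refine ContinuousAt.div ?_ ?_ ?_
  · exact (hvi i).mul (Complex.continuous_conj.continuousAt.comp (hvi j))
  · refine Complex.continuous_ofReal.continuousAt.comp ?_
    exact tendsto_finsetSum _ fun k _ => Complex.continuous_normSq.continuousAt.comp (hvi k)
  · exact_mod_cast (sum_normSq_pos h).ne'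

lemma continuous_sepf : Continuous sepf := by
  rw [continuous_iff_continuousAt]
  intro q
  set k := idx (rep q) with hk
  have hq : q ∈ (ch k).source := mem_dom_idx (rep_mem q)
  have h1 : ContinuousAt (fun z : R4 => sepf ((ch k).symm z)) (ch k q) := by
    have h2 : (fun z : R4 => sepf ((ch k).symm z)) = fun z =>
        (proj (sepX (sec k (eqv.symm z))), proj (sepZ (sec k (eqv.symm z)))) := by
      funext z
      rw [ch_symm_apply, sepf_pr (dom_subset k (sec_mem k _))]
    rw [h2]
    have hs : ∀ z : R4, sec k (eqv.symm z) ∈ Pairs := fun z => dom_subset k (sec_mem k _)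
    have hc : ContinuousAt (fun z : R4 => sec k (eqv.symm z)) (ch k q) :=
      ((contDiff_sec k).continuous.comp eqv.symm.continuous).continuousAt
    have hX : Continuous sepX := by
      refine continuous_pi fun i => ?_
      fin_cases i <;> simp only [sepX] <;> fun_prop
    have hZ : Continuous sepZ := by
      refine continuous_pi fun i => ?_
      fin_cases i <;> simp only [sepZ] <;> fun_prop
    have e1 : ContinuousAt (fun m => proj (sepX m)) (sec k (eqv.symm (ch k q))) :=
      continuousAt_proj hX.continuousAt (sepX_ne (hs _))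
    have e2 : ContinuousAt (fun m => proj (sepZ m)) (sec k (eqv.symm (ch k q))) :=
      continuousAt_proj hZ.continuousAt (sepZ_ne (hs _))
    exact (ContinuousAt.comp (g := fun m => proj (sepX m))
      (f := fun z : R4 => sec k (eqv.symm z)) (x := ch k q) e1 hc).prodMk
      (ContinuousAt.comp (g := fun m => proj (sepZ m))
      (f := fun z : R4 => sec k (eqv.symm z)) (x := ch k q) e2 hc)
  have h3 : ContinuousAt ((fun z : R4 => sepf ((ch k).symm z)) ∘ ch k) q :=
    h1.comp ((ch k).continuousAt hq)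
  refine h3.congr ?_
  filter_upwards [(ch k).open_source.mem_nhds hq] with q' hq'
  rw [Function.comp_apply, (ch k).left_inv hq']

instance : T2Space M4 := T2Space.of_injective_continuous sepf_injective continuous_sepf

end Pool.Agent.LibMixed
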